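import Pool.Agent.H.MP_43e44c_ag.PS.Num

/-!
The numerical estimate for types of small multiplicity.
-/

set_option autoImplicit false

namespace Pool.MP43e44c

theorem cube_le_pow (m : ℕ) (hm : 2 ≤ m) : (2 * (m : ℝ) + 1) ^ 3 ≤ 8 * 4 ^ m := by
  induction m, hm using Nat.le_induction with
  | base => norm_num
  | succ m hm ih =>
    have hmR : (2 : ℝ) ≤ m := by exact_mod_cast hm
    have h1 : (2 * ((m + 1 : ℕ) : ℝ) + 1) ^ 3 ≤ 4 * (2 * (m : ℝ) + 1) ^ 3 := by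
      push_cast
      have e1 : 2 * ((m : ℝ) + 1) + 1 ≤ 3 / 2 * (2 * (m : ℝ) + 1) := by linarith
      calc (2 * ((m : ℝ) + 1) + 1) ^ 3 ≤ (3 / 2 * (2 * (m : ℝ) + 1)) ^ 3 := by gcongr
        _ = 27 / 8 * (2 * (m : ℝ) + 1) ^ 3 := by ring
        _ ≤ _ := by
          have : (0 : ℝ) ≤ (2 * (m : ℝ) + 1) ^ 3 := by positivity
          linarith
    calc (2 * ((m + 1 : ℕ) : ℝ) + 1) ^ 3 ≤ 4 * (2 * (m : ℝ) + 1) ^ 3 := h1
      _ ≤ 4 * (8 * 4 ^ m) := by gcongr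
      _ = 8 * 4 ^ (m + 1) := by ring

theorem log_le_two_sqrt {x : ℝ} (hx : 0 < x) : Real.log x ≤ 2 * Real.sqrt x := by
  have h1 : Real.log x = 2 * Real.log (Real.sqrt x) := by
    rw [Real.log_sqrt hx.le]; ring
  rw [h1]
  have h2 := Real.log_le_sub_one_of_pos (Real.sqrt_pos.2 hx)
  linarith

/-- Few large types. -/
theorem nonspecial_large {n N h m : ℕ} {k κ : ℝ} (hn : (10 : ℝ) ^ 14 ≤ n) (hm : 2 ≤ m)
    (hN1 : 2 * m ≤ N) (hN2 : N ≤ 2 * m + 1) (hh1 : 1 ≤ h) (hh : h ≤ m)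
    (hk : (n : ℝ) = k * N) (hk2 : (10 : ℝ) ^ 7 ≤ k) (hκ0 : 0 ≤ κ)
    (hκ : κ ≤ 13 / 5 / Real.sqrt k) :
    2 * h * (1 + 8 * (lam n N * Real.sqrt k)) ^ (h - 1) * κ ^ N * (n * Real.sqrt n)
      ≤ 200000 * N * Real.sqrt (Real.log n) := by
  have hnR : (0 : ℝ) < n := lt_of_lt_of_le (by norm_num) hn
  have hn2 : 2 ≤ n := by
    have : (2 : ℝ) ≤ n := le_trans (by norm_num) hn
    exact_mod_cast this
  have hL := half_lt_log hn2
  set L := Real.log n with hLdef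
  have hNpos : 0 < N := by omega
  have hNR : (0 : ℝ) < N := by exact_mod_cast hNpos
  have hk1 : (1 : ℝ) ≤ k := le_trans (by norm_num) hk2
  have hk0 : 0 < k := by linarith
  have hl1 := one_le_lam n N
  have hsk : 1 ≤ Real.sqrt k := Real.one_le_sqrt.2 hk1
  have hΛ0 : 0 < lam n N := by linarith
  have hmN : 2 * (m : ℝ) ≤ N := by exact_mod_cast hN1
  have hNm : (N : ℝ) ≤ 2 * m + 1 := by exact_mod_cast hN2
  have hhm : (h : ℝ) ≤ m := by exact_mod_cast hh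
  set Y := 9 * (lam n N * Real.sqrt k) with hY
  have hXY : 1 + 8 * (lam n N * Real.sqrt k) ≤ Y := by rw [hY]; nlinarith
  have hY1 : 1 ≤ Y := by rw [hY]; nlinarith
  have hY2 : Y ^ 2 = 648 * (5 + 2 * (L / N)) * k := by
    rw [hY, mul_pow, mul_pow, lam_sq, Real.sq_sqrt hk0.le]
    ring
  have hLN : 0 ≤ L / N := div_nonneg (by linarith) hNR.le
  -- the bound for the left hand side
  have hA : 2 * h * (1 + 8 * (lam n N * Real.sqrt k)) ^ (h - 1) * κ ^ N * (n * Real.sqrt n)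
      ≤ N * Y ^ (m - 1) * (13 / 5 / Real.sqrt k) ^ N * (n * Real.sqrt n) := by
    have e1 : (1 + 8 * (lam n N * Real.sqrt k)) ^ (h - 1) ≤ Y ^ (m - 1) := by
      calc (1 + 8 * (lam n N * Real.sqrt k)) ^ (h - 1) ≤ Y ^ (h - 1) := by gcongr
        _ ≤ _ := pow_le_pow_right₀ hY1 (by omega)
    have e2 : (2 * h : ℝ) ≤ N := by linarith
    gcongr
  refine hA.trans ?_
  refine (pow_le_pow_iff_left₀ (by positivity) (by positivity) two_ne_zero).1 ?_
  have hsq : (N * Y ^ (m - 1) * (13 / 5 / Real.sqrt k) ^ N * (n * Real.sqrt n)) ^ 2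
      = N ^ 2 * (Y ^ 2) ^ (m - 1) * ((169 / 25) ^ N / k ^ N) * n ^ 3 := by
    have e1 : ((13 / 5 / Real.sqrt k) ^ N) ^ 2 = (169 / 25) ^ N / k ^ N := by
      rw [← pow_mul, mul_comm N 2, pow_mul, div_pow, Real.sq_sqrt hk0.le, ← div_pow]
      norm_num
    have e2 : (Real.sqrt n) ^ 2 = n := Real.sq_sqrt hnR.le
    calc (N * Y ^ (m - 1) * (13 / 5 / Real.sqrt k) ^ N * (n * Real.sqrt n)) ^ 2
        = N ^ 2 * (Y ^ 2) ^ (m - 1) * ((13 / 5 / Real.sqrt k) ^ N) ^ 2 *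
          (n ^ 2 * (Real.sqrt n) ^ 2) := by ring
      _ = _ := by rw [e1, e2]; ring
  rw [hsq, hY2]
  have hrhs : (200000 * (N : ℝ) * Real.sqrt L) ^ 2 = 40000000000 * N ^ 2 * L := by
    rw [mul_pow, mul_pow, Real.sq_sqrt (by linarith)]
    norm_num
  rw [hrhs]
  -- the powers of 169/25 and k
  have hpow1 : ((169 / 25 : ℝ)) ^ N ≤ 7 * 46 ^ m := by
    calc ((169 / 25 : ℝ)) ^ N ≤ (169 / 25) ^ (2 * m + 1) :=
          pow_le_pow_right₀ (by norm_num) hN2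
      _ = 169 / 25 * ((169 / 25) ^ 2) ^ m := by rw [pow_succ, pow_mul]; ring
      _ ≤ 7 * 46 ^ m := by gcongr <;> norm_num
  have hpow2 : (k : ℝ) ^ (2 * m) ≤ k ^ N := pow_le_pow_right₀ hk1 hN1
  obtain ⟨j, rfl⟩ : ∃ j, m = j + 2 := ⟨m - 2, by omega⟩
  have hj1 : j + 2 - 1 = j + 1 := by omega
  rw [hj1]
  have hstep1 : (N : ℝ) ^ 2 * (648 * (5 + 2 * (L / N)) * k) ^ (j + 1) *
      ((169 / 25) ^ N / k ^ N) * n ^ 3
      ≤ N ^ 2 * (648 * (5 + 2 * (L / N)) * k) ^ (j + 1) *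
      ((7 * 46 ^ (j + 2)) / k ^ (2 * (j + 2))) * n ^ 3 := by
    gcongr
  refine hstep1.trans ?_
  have hstep2 : (N : ℝ) ^ 2 * (648 * (5 + 2 * (L / N)) * k) ^ (j + 1) *
      ((7 * 46 ^ (j + 2)) / k ^ (2 * (j + 2))) * n ^ 3
      = N ^ 2 * (9598176 * (N ^ 2 * (5 * N + 2 * L))) * (29808 * (5 * N + 2 * L) / n) ^ j := by
    have e1 : (29808 * (5 * (N : ℝ) + 2 * L) / n) = 46 * (648 * (5 + 2 * (L / N))) / k := by
      rw [hk]
      field_simp
      ring_nf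
    have e2 : (N : ℝ) ^ 2 * (5 * N + 2 * L) = N ^ 3 * (5 + 2 * (L / N)) := by
      field_simp
    rw [e1, e2, hk]
    generalize 5 + 2 * (L / (N : ℝ)) = a
    rw [div_pow, mul_pow 46, mul_pow (648 * a) k,
      show 2 * (j + 2) = (j + 1) + j + 3 by omega, pow_add k, pow_add k]
    field_simp
    ring_nf
  rw [hstep2]
  -- the ratio
  have hq : 29808 * (5 * (N : ℝ) + 2 * L) / n ≤ 1 / 4 := by
    have e1 : (N : ℝ) / n ≤ 1 / 10 ^ 7 := by
      rw [hk, div_le_div_iff₀ (by positivity) (by norm_num)]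
      nlinarith
    have e2 : L / n ≤ 2 / 10 ^ 7 := by
      have e3 := log_le_two_sqrt hnR
      have e4 : (10 : ℝ) ^ 7 ≤ Real.sqrt n := Real.le_sqrt_of_sq_le (by
        refine le_trans (by norm_num) hn)
      have e5 : Real.sqrt n * Real.sqrt n = n := Real.mul_self_sqrt hnR.le
      rw [div_le_div_iff₀ hnR (by norm_num)]
      calc L * 10 ^ 7 ≤ (2 * Real.sqrt n) * Real.sqrt n := by
            apply mul_le_mul e3 e4 (by norm_num) (by positivity)
        _ = 2 * n := by rw [mul_assoc, e5]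
    have e3 : 29808 * (5 * (N : ℝ) + 2 * L) / n = 149040 * (N / n) + 59616 * (L / n) := by
      field_simp
      ring
    rw [e3]
    have e4 : 149040 * ((N : ℝ) / n) ≤ 149040 * (1 / 10 ^ 7) := by gcongr
    have e5 : 59616 * (L / n) ≤ 59616 * (2 / 10 ^ 7) := by gcongr
    refine (add_le_add e4 e5).trans (by norm_num)
  have hq0 : 0 ≤ 29808 * (5 * (N : ℝ) + 2 * L) / n := by positivity
  have hcube : (N : ℝ) ^ 3 ≤ 8 * 4 ^ (j + 2) := by
    have e1 := cube_le_pow (j + 2) (by omega)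
    refine le_trans ?_ e1
    have e2 : (N : ℝ) ≤ 2 * ((j + 2 : ℕ) : ℝ) + 1 := by exact_mod_cast hN2
    gcongr
  have hN1R : (1 : ℝ) ≤ N := by exact_mod_cast hNpos
  have hsum : (N : ℝ) ^ 2 * (5 * N + 2 * L) ≤ 8 * 4 ^ (j + 2) * (12 * L) := by
    have e1 : (N : ℝ) ^ 2 * (5 * N + 2 * L) ≤ N ^ 3 * (5 + 2 * L) := by
      have e2 : (N : ℝ) ^ 2 ≤ N ^ 3 := pow_le_pow_right₀ hN1R (by norm_num)
      have e3 : (N : ℝ) ^ 2 * (5 * N + 2 * L) = N ^ 3 * 5 + N ^ 2 * (2 * L) := by ring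
      rw [e3, mul_add]
      gcongr
    have e2 : 5 + 2 * L ≤ 12 * L := by linarith
    calc (N : ℝ) ^ 2 * (5 * N + 2 * L) ≤ N ^ 3 * (5 + 2 * L) := e1
      _ ≤ (8 * 4 ^ (j + 2)) * (12 * L) := by gcongr
  calc (N : ℝ) ^ 2 * (9598176 * (N ^ 2 * (5 * N + 2 * L))) * (29808 * (5 * N + 2 * L) / n) ^ j
      ≤ N ^ 2 * (9598176 * (8 * 4 ^ (j + 2) * (12 * L))) * (1 / 4) ^ j := by gcongr
    _ = 14742798336 * N ^ 2 * L * (4 ^ j * (1 / 4) ^ j) := by
        rw [pow_add]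
        generalize ((1 : ℝ) / 4) ^ j = b
        ring
    _ = 14742798336 * N ^ 2 * L := by rw [← mul_pow]; norm_num
    _ ≤ 40000000000 * N ^ 2 * L := by
        have : 0 ≤ (N : ℝ) ^ 2 * L := by positivity
        nlinarith

theorem sq_mul_pow_le (N : ℕ) : (N : ℝ) ^ 2 * (97 / 100) ^ N ≤ 2500 := by
  have h1 : ((97 / 100 : ℝ)) ^ N ≤ Real.exp (-(3 / 100 * N)) := by
    have h2 : (97 / 100 : ℝ) ≤ Real.exp (-(3 / 100)) := by
      have := Real.add_one_le_exp (-(3 / 100) : ℝ)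
      linarith
    calc ((97 / 100 : ℝ)) ^ N ≤ Real.exp (-(3 / 100)) ^ N := by gcongr
      _ = _ := by rw [← Real.exp_nat_mul]; congr 1; ring
  have hx : 0 ≤ 3 / 100 * (N : ℝ) := by positivity
  have h3 := Real.quadratic_le_exp_of_nonneg hx
  have h4 : (N : ℝ) ^ 2 ≤ 2500 * Real.exp (3 / 100 * N) := by nlinarith
  calc (N : ℝ) ^ 2 * (97 / 100) ^ N
      ≤ (2500 * Real.exp (3 / 100 * N)) * Real.exp (-(3 / 100 * N)) := by gcongr
    _ = 2500 := by rw [mul_assoc, ← Real.exp_add]; simp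

theorem nonspecial_le : ∃ C : ℝ, 0 < C ∧ ∀ (n N h : ℕ) (k κ : ℝ), 2 ≤ n → 4 ≤ N → 1 ≤ h →
    2 * h ≤ N → h * N ≤ 4 * n → 2 * N ≤ n → (n : ℝ) = k * N → 0 ≤ κ → κ ≤ 97 / 100 →
    κ ≤ 13 / 5 / Real.sqrt k →
    2 * h * (1 + 8 * (lam n N * Real.sqrt k)) ^ (h - 1) * κ ^ N * (n * Real.sqrt n)
      ≤ C * N * Real.sqrt (Real.log n) := by
  obtain ⟨n₀, hn₀⟩ : ∃ n₀ : ℕ, n₀ = 10 ^ 14 := ⟨_, rfl⟩
  obtain ⟨K, hK⟩ : ∃ K : ℕ, K = 10 ^ 7 := ⟨_, rfl⟩
  have hKR : (K : ℝ) = 10 ^ 7 := by rw [hK]; norm_num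
  have hK0 : (0 : ℝ) < K := by rw [hKR]; norm_num
  set B₁ : ℝ := 1 + 8 * (Real.sqrt (40 + 16 * n₀) * Real.sqrt n₀) with hB₁
  set C₁' : ℝ := 2 * n₀ * B₁ ^ n₀ * (n₀ * Real.sqrt n₀) with hC₁
  set B₂ : ℝ := 1 + 8 * (Real.sqrt (40 + 16 * K) * Real.sqrt K) with hB₂
  set C₂' : ℝ := 2 * (4 * K) * B₂ ^ (4 * K) * (K ^ 2 * 2500) with hC₂
  have hB₁1 : 1 ≤ B₁ := by rw [hB₁]; have := Real.sqrt_nonneg (40 + 16 * (n₀ : ℝ)); have := Real.sqrt_nonneg (n₀ : ℝ); nlinarith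
  have hB₂1 : 1 ≤ B₂ := by rw [hB₂]; have := Real.sqrt_nonneg (40 + 16 * (K : ℝ)); have := Real.sqrt_nonneg (K : ℝ); nlinarith
  have hC₁0 : 0 ≤ C₁' := by rw [hC₁]; positivity
  have hC₂0 : 0 ≤ C₂' := by rw [hC₂]; positivity
  refine ⟨C₁' + C₂' + 200000, by positivity, ?_⟩
  intro n N h k κ hn hN hh1 hh hhN hNn hk hκ0 hκ1 hκ
  have hL := half_lt_log hn
  have hnR : (0 : ℝ) < n := by exact_mod_cast (by omega : 0 < n)
  have hNR : (4 : ℝ) ≤ N := by exact_mod_cast hN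
  have hk2 : 2 ≤ k := by
    have h1 : (2 : ℝ) * N ≤ n := by exact_mod_cast hNn
    rw [hk] at h1
    exact le_of_mul_le_mul_right h1 (by linarith)
  have hsqL : 1 / 2 ≤ Real.sqrt (Real.log n) := by
    apply Real.le_sqrt_of_sq_le
    linarith
  have hNL : 1 ≤ (N : ℝ) * Real.sqrt (Real.log n) := by nlinarith
  have hlamn : lam n N ≤ Real.sqrt (40 + 16 * (n / N)) := by
    unfold lam
    apply Real.sqrt_le_sqrt
    have h1 : Real.log n ≤ n := by
      have := Real.log_le_sub_one_of_pos hnR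
      linarith
    gcongr
  rcases lt_or_ge n n₀ with hnn | hnn
  · -- small degrees
    have h1 : lam n N ≤ Real.sqrt (40 + 16 * n₀) := by
      refine hlamn.trans (Real.sqrt_le_sqrt ?_)
      have h2 : (n : ℝ) / N ≤ n := div_le_self hnR.le (by linarith)
      have h3 : (n : ℝ) ≤ n₀ := by exact_mod_cast hnn.le
      linarith
    have h3 : (n : ℝ) ≤ n₀ := by exact_mod_cast hnn.le
    have hkn : k ≤ n := by rw [hk]; nlinarith
    have h4 : 1 + 8 * (lam n N * Real.sqrt k) ≤ B₁ := by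
      rw [hB₁]
      have := one_le_lam n N
      gcongr
      exact hkn.trans h3
    have hhn : h ≤ n₀ := by omega
    have hx0 : 0 ≤ 1 + 8 * (lam n N * Real.sqrt k) := by
      have := one_le_lam n N
      positivity
    have h5 : 2 * h * (1 + 8 * (lam n N * Real.sqrt k)) ^ (h - 1) * κ ^ N * (n * Real.sqrt n)
        ≤ C₁' := by
      have e1 : (1 + 8 * (lam n N * Real.sqrt k)) ^ (h - 1) ≤ B₁ ^ n₀ := by
        calc (1 + 8 * (lam n N * Real.sqrt k)) ^ (h - 1) ≤ B₁ ^ (h - 1) := by gcongr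
          _ ≤ _ := pow_le_pow_right₀ hB₁1 (by omega)
      have e2 : κ ^ N ≤ 1 := pow_le_one₀ hκ0 (by linarith)
      have e3 : (h : ℝ) ≤ n₀ := by exact_mod_cast hhn
      calc 2 * h * (1 + 8 * (lam n N * Real.sqrt k)) ^ (h - 1) * κ ^ N * (n * Real.sqrt n)
          ≤ 2 * n₀ * B₁ ^ n₀ * 1 * (n₀ * Real.sqrt n₀) := by gcongr
        _ = C₁' := by rw [hC₁]; ring
    calc _ ≤ C₁' := h5
      _ = C₁' * 1 := (mul_one _).symm
      _ ≤ C₁' * (N * Real.sqrt (Real.log n)) := by gcongr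
      _ ≤ (C₁' + C₂' + 200000) * (N * Real.sqrt (Real.log n)) := by
        gcongr
        linarith
      _ = _ := by ring
  · rcases lt_or_ge k K with hkK | hkK
    · -- large dimension
      have hkN : (n : ℝ) / N = k := by rw [hk]; field_simp
      have h1 : lam n N ≤ Real.sqrt (40 + 16 * K) := by
        refine hlamn.trans (Real.sqrt_le_sqrt ?_)
        rw [hkN]
        linarith
      have h4 : 1 + 8 * (lam n N * Real.sqrt k) ≤ B₂ := by
        rw [hB₂]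
        have := one_le_lam n N
        gcongr
      have hhK : (h : ℝ) ≤ 4 * K := by
        have e1 : (h : ℝ) * N ≤ 4 * n := by exact_mod_cast hhN
        rw [hk] at e1
        have e2 : (h : ℝ) ≤ 4 * k := by
          have e3 : (h : ℝ) * N ≤ (4 * k) * N := by linarith
          exact le_of_mul_le_mul_right e3 (by linarith)
        linarith
      have hhK' : h ≤ 4 * K := by exact_mod_cast hhK
      have hx0 : 0 ≤ 1 + 8 * (lam n N * Real.sqrt k) := by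
        have := one_le_lam n N
        positivity
      have h5 : 2 * h * (1 + 8 * (lam n N * Real.sqrt k)) ^ (h - 1) * κ ^ N * (n * Real.sqrt n)
          ≤ C₂' := by
        have e1 : (1 + 8 * (lam n N * Real.sqrt k)) ^ (h - 1) ≤ B₂ ^ (4 * K) := by
          calc (1 + 8 * (lam n N * Real.sqrt k)) ^ (h - 1) ≤ B₂ ^ (h - 1) := by gcongr
            _ ≤ _ := pow_le_pow_right₀ hB₂1 (by omega)
        have e2 : κ ^ N ≤ (97 / 100) ^ N := by gcongr
        have e3 : (n : ℝ) * Real.sqrt n ≤ K ^ 2 * N ^ 2 := by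
          have e4 : (n : ℝ) ≤ K * N := by rw [hk]; gcongr
          have e5 : Real.sqrt n ≤ n := by
            rw [Real.sqrt_le_iff]
            refine ⟨hnR.le, ?_⟩
            have : (1 : ℝ) ≤ n := by exact_mod_cast (by omega : 1 ≤ n)
            nlinarith
          calc (n : ℝ) * Real.sqrt n ≤ (K * N) * (K * N) :=
                mul_le_mul e4 (e5.trans e4) (Real.sqrt_nonneg _) (by positivity)
            _ = _ := by ring
        calc 2 * h * (1 + 8 * (lam n N * Real.sqrt k)) ^ (h - 1) * κ ^ N * (n * Real.sqrt n)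
            ≤ 2 * (4 * K) * B₂ ^ (4 * K) * (97 / 100) ^ N * (K ^ 2 * N ^ 2) := by gcongr
          _ = 2 * (4 * K) * B₂ ^ (4 * K) * (K ^ 2 * (N ^ 2 * (97 / 100) ^ N)) := by ring
          _ ≤ 2 * (4 * K) * B₂ ^ (4 * K) * (K ^ 2 * 2500) := by
            have := sq_mul_pow_le N
            gcongr
          _ = C₂' := by rw [hC₂]
      calc _ ≤ C₂' := h5
        _ = C₂' * 1 := (mul_one _).symm
        _ ≤ C₂' * (N * Real.sqrt (Real.log n)) := by gcongr
        _ ≤ (C₁' + C₂' + 200000) * (N * Real.sqrt (Real.log n)) := by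
          gcongr
          linarith
        _ = _ := by ring
    · -- main case
      have hn14 : (10 : ℝ) ^ 14 ≤ n := by
        have e1 : (n₀ : ℝ) ≤ n := by exact_mod_cast hnn
        rw [hn₀] at e1
        refine le_trans ?_ e1
        norm_num
      have h5 := nonspecial_large (m := N / 2) hn14 (by omega) (by omega) (by omega) hh1 (by omega)
        hk (hKR ▸ hkK) hκ0 hκ
      refine h5.trans ?_
      have : 0 ≤ (N : ℝ) * Real.sqrt (Real.log n) := by positivity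
      calc 200000 * (N : ℝ) * Real.sqrt (Real.log n) = 200000 * (N * Real.sqrt (Real.log n)) := by
            ring
        _ ≤ (C₁' + C₂' + 200000) * (N * Real.sqrt (Real.log n)) := by
            gcongr
            linarith
        _ = _ := by ring

end Pool.MP43e44c
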