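import Pool.Agent.H.MP_43e44c_ag.SB.Rep

/-!
Minimal invariant subspaces which are images of each other.
-/

set_option autoImplicit false

open Finset Module

namespace Pool.MP43e44c

namespace Coc

variable {Γ ι : Type*} [Group Γ] [MulAction Γ ι] [Fintype ι] (C : Coc Γ ι)

/-- The second subspace is the image of the first under an intertwining operator. -/
def Img (U W : Submodule ℝ (EuclideanSpace ℝ ι)) : Prop :=
  ∃ T ∈ C.Hom U, T ≠ 0 ∧ LinearMap.range (T : U →ₗ[ℝ] EuclideanSpace ℝ ι) = W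

variable {C}

theorem subtype_mem_hom (U : Submodule ℝ (EuclideanSpace ℝ ι)) : U.subtypeL ∈ C.Hom U := by
  intro g x y h
  exact h.symm

theorem subtype_ne_zero {U : Submodule ℝ (EuclideanSpace ℝ ι)} (h0 : U ≠ ⊥) :
    U.subtypeL ≠ 0 := by
  intro h
  apply h0
  rw [eq_bot_iff]
  intro x hx
  have h1 : U.subtypeL ⟨x, hx⟩ = 0 := by rw [h]; rfl
  exact (Submodule.mem_bot ℝ).2 h1

theorem Img.refl {U : Submodule ℝ (EuclideanSpace ℝ ι)} (h0 : U ≠ ⊥) : C.Img U U :=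
  ⟨U.subtypeL, subtype_mem_hom U, subtype_ne_zero h0, Submodule.range_subtype U⟩

theorem hom_injective {U : Submodule ℝ (EuclideanSpace ℝ ι)} (hU : C.Mnl U)
    {T : U →L[ℝ] EuclideanSpace ℝ ι} (hT : T ∈ C.Hom U) (h0 : T ≠ 0) :
    Function.Injective T := by
  have h1 : ‖T‖ ≠ 0 := fun h => h0 (by
    ext x : 1
    have h2 := T.le_opNorm x
    rw [h, zero_mul] at h2
    exact norm_le_zero_iff.1 h2)
  rw [injective_iff_map_eq_zero]
  intro x hx
  have h2 := C.norm_hom hU hT x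
  rw [hx, norm_zero] at h2
  exact norm_eq_zero.1 ((mul_eq_zero.1 h2.symm).resolve_left h1)

theorem finrank_range_hom {U : Submodule ℝ (EuclideanSpace ℝ ι)} (hU : C.Mnl U)
    {T : U →L[ℝ] EuclideanSpace ℝ ι} (hT : T ∈ C.Hom U) (h0 : T ≠ 0) :
    finrank ℝ (LinearMap.range (T : U →ₗ[ℝ] EuclideanSpace ℝ ι)) = finrank ℝ U :=
  LinearMap.finrank_range_of_inj (hom_injective hU hT h0)

/-- Composition of intertwining operators. -/
theorem comp_mem_hom {U W : Submodule ℝ (EuclideanSpace ℝ ι)}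
    {T : U →L[ℝ] EuclideanSpace ℝ ι} (hT : T ∈ C.Hom U) (hTW : ∀ x, T x ∈ W)
    {S : W →L[ℝ] EuclideanSpace ℝ ι} (hS : S ∈ C.Hom W) :
    S.comp (T.codRestrict W hTW) ∈ C.Hom U := by
  intro g x y h
  exact hS g (T.codRestrict W hTW x) (T.codRestrict W hTW y) (hT g x y h).symm

theorem Img.trans {U V W : Submodule ℝ (EuclideanSpace ℝ ι)} (hV : C.Mnl V)
    (h1 : C.Img U V) (h2 : C.Img V W) : C.Img U W := by
  obtain ⟨T, hT, hT0, rfl⟩ := h1
  obtain ⟨S, hS, hS0, rfl⟩ := h2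
  have hTW : ∀ x, T x ∈ LinearMap.range (T : U →ₗ[ℝ] EuclideanSpace ℝ ι) := fun x => ⟨x, rfl⟩
  refine ⟨S.comp (T.codRestrict _ hTW), comp_mem_hom hT hTW hS, ?_, ?_⟩
  · intro h
    apply hT0
    ext x : 1
    have h3 : S (T.codRestrict _ hTW x) = 0 := by
      have := congrArg (fun R : U →L[ℝ] EuclideanSpace ℝ ι => R x) h
      exact this
    have h4 := (injective_iff_map_eq_zero S).1 (hom_injective hV hS hS0) _ h3
    exact congrArg Subtype.val h4
  · ext y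
    constructor
    · rintro ⟨x, rfl⟩
      exact ⟨_, rfl⟩
    · rintro ⟨⟨_, x, rfl⟩, rfl⟩
      exact ⟨x, rfl⟩

/-- The inverse of an intertwining operator. -/
theorem exists_inv_hom {U : Submodule ℝ (EuclideanSpace ℝ ι)} (hU : C.Mnl U)
    {T : U →L[ℝ] EuclideanSpace ℝ ι} (hT : T ∈ C.Hom U) (h0 : T ≠ 0) :
    ∃ S ∈ C.Hom (LinearMap.range (T : U →ₗ[ℝ] EuclideanSpace ℝ ι)),
      ∀ x : U, S ⟨T x, x, rfl⟩ = x := by
  have hinj := hom_injective hU hT h0
  let e : U ≃ₗ[ℝ] LinearMap.range (T : U →ₗ[ℝ] EuclideanSpace ℝ ι) :=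
    LinearEquiv.ofInjective (T : U →ₗ[ℝ] EuclideanSpace ℝ ι) hinj
  let S₀ : LinearMap.range (T : U →ₗ[ℝ] EuclideanSpace ℝ ι) →ₗ[ℝ] EuclideanSpace ℝ ι :=
    U.subtype ∘ₗ e.symm.toLinearMap
  have hS : ∀ x : U, S₀ ⟨T x, x, rfl⟩ = x := by
    intro x
    have h1 : e x = ⟨T x, x, rfl⟩ := rfl
    rw [← h1]
    show ((e.symm (e x) : U) : EuclideanSpace ℝ ι) = x
    rw [e.symm_apply_apply]
  refine ⟨LinearMap.toContinuousLinearMap S₀, ?_, hS⟩
  rintro g ⟨_, x, rfl⟩ ⟨_, y, rfl⟩ h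
  have h1 : C.act g (T x) = T y := h
  have h2 : C.act g (x : EuclideanSpace ℝ ι) ∈ U := hU.1 g x x.2
  have h3 := hT g x ⟨_, h2⟩ rfl
  rw [h1] at h3
  have h4 := hinj h3
  show S₀ ⟨T y, y, rfl⟩ = C.act g (S₀ ⟨T x, x, rfl⟩)
  rw [hS, hS]
  exact (congrArg Subtype.val h4).symm

theorem Img.symm {U W : Submodule ℝ (EuclideanSpace ℝ ι)} (hU : C.Mnl U) (h : C.Img U W) :
    C.Img W U := by
  obtain ⟨T, hT, hT0, rfl⟩ := h
  obtain ⟨S, hS, hST⟩ := exists_inv_hom hU hT hT0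
  have hr : LinearMap.range (S : LinearMap.range (T : U →ₗ[ℝ] EuclideanSpace ℝ ι) →ₗ[ℝ]
      EuclideanSpace ℝ ι) = U := by
    ext y
    constructor
    · rintro ⟨⟨_, x, rfl⟩, rfl⟩
      show S ⟨T x, x, rfl⟩ ∈ U
      rw [hST]
      exact x.2
    · intro hy
      exact ⟨⟨T ⟨y, hy⟩, _, rfl⟩, hST ⟨y, hy⟩⟩
  refine ⟨S, hS, ?_, hr⟩
  rintro rfl
  apply hU.2.1
  rw [← hr]
  exact LinearMap.range_zero

/-- Images of minimal subspaces are minimal. -/
theorem mnl_range {U : Submodule ℝ (EuclideanSpace ℝ ι)} (hU : C.Mnl U)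
    {T : U →L[ℝ] EuclideanSpace ℝ ι} (hT : T ∈ C.Hom U) (h0 : T ≠ 0) :
    C.Mnl (LinearMap.range (T : U →ₗ[ℝ] EuclideanSpace ℝ ι)) := by
  refine ⟨C.inv_range hU.1 hT, ?_, ?_⟩
  · intro h
    apply h0
    ext x : 1
    have h1 : T x ∈ LinearMap.range (T : U →ₗ[ℝ] EuclideanSpace ℝ ι) := ⟨x, rfl⟩
    rw [h] at h1
    exact (Submodule.mem_bot ℝ).1 h1
  · intro W hW hWi hW0
    -- the preimage of `W`
    let W' : Submodule ℝ (EuclideanSpace ℝ ι) :=
      (W.comap (T : U →ₗ[ℝ] EuclideanSpace ℝ ι)).map U.subtype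
    have hW' : W' ≤ U := by
      rintro _ ⟨x, -, rfl⟩
      exact x.2
    have hW'i : C.Inv W' := by
      rintro g _ ⟨x, hx, rfl⟩
      have h2 : C.act g (x : EuclideanSpace ℝ ι) ∈ U := hU.1 g x x.2
      refine ⟨⟨_, h2⟩, ?_, rfl⟩
      show T ⟨C.act g x, h2⟩ ∈ W
      rw [hT g x ⟨_, h2⟩ rfl]
      exact hWi g _ hx
    have hW'0 : W' ≠ ⊥ := by
      intro h
      apply hW0
      rw [eq_bot_iff]
      intro y hy
      obtain ⟨x, rfl⟩ := hW hy
      have h1 : (x : EuclideanSpace ℝ ι) ∈ W' := ⟨x, hy, rfl⟩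
      rw [h] at h1
      have h2 : x = 0 := Subtype.ext ((Submodule.mem_bot ℝ).1 h1)
      rw [h2, map_zero]
      exact Submodule.zero_mem _
    have h3 := hU.2.2 W' hW' hW'i hW'0
    apply le_antisymm hW
    rintro _ ⟨x, rfl⟩
    have h4 : (x : EuclideanSpace ℝ ι) ∈ W' := by rw [h3]; exact x.2
    obtain ⟨x', hx', h5⟩ := h4
    have h6 : x' = x := Subtype.ext h5
    rw [← h6]
    exact hx'

theorem Img.mnl {U W : Submodule ℝ (EuclideanSpace ℝ ι)} (hU : C.Mnl U) (h : C.Img U W) :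
    C.Mnl W := by
  obtain ⟨T, hT, hT0, rfl⟩ := h
  exact mnl_range hU hT hT0

theorem finrank_hom_img_le {U : Submodule ℝ (EuclideanSpace ℝ ι)}
    {T : U →L[ℝ] EuclideanSpace ℝ ι} (hT : T ∈ C.Hom U) :
    finrank ℝ (C.Hom (LinearMap.range (T : U →ₗ[ℝ] EuclideanSpace ℝ ι))) ≤
      finrank ℝ (C.Hom U) := by
  have hTW : ∀ x, T x ∈ LinearMap.range (T : U →ₗ[ℝ] EuclideanSpace ℝ ι) := fun x => ⟨x, rfl⟩
  let L : C.Hom (LinearMap.range (T : U →ₗ[ℝ] EuclideanSpace ℝ ι)) →ₗ[ℝ] C.Hom U :=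
    { toFun := fun S => ⟨S.1.comp (T.codRestrict _ hTW), comp_mem_hom hT hTW S.2⟩
      map_add' := fun S S' => by
        apply Subtype.ext
        ext x : 1
        rfl
      map_smul' := fun r S => by
        apply Subtype.ext
        ext x : 1
        rfl }
  refine LinearMap.finrank_le_finrank_of_injective (f := L) ?_
  intro S S' h
  apply Subtype.ext
  ext ⟨_, x, rfl⟩ : 1
  have h1 := congrArg (fun R : C.Hom U => R.1 x) h
  exact h1

theorem finrank_hom_img {U W : Submodule ℝ (EuclideanSpace ℝ ι)} (hU : C.Mnl U)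
    (h : C.Img U W) : finrank ℝ (C.Hom W) = finrank ℝ (C.Hom U) := by
  have h' := h.symm hU
  apply le_antisymm
  · obtain ⟨T, hT, -, rfl⟩ := h
    exact finrank_hom_img_le hT
  · obtain ⟨T, hT, -, rfl⟩ := h'
    exact finrank_hom_img_le hT

/-- Pairwise orthogonal subspaces. -/
theorem sum_finrank_le (R : Finset (Submodule ℝ (EuclideanSpace ℝ ι)))
    (hR : ∀ U ∈ R, ∀ W ∈ R, U ≠ W → U ⟂ W) (V : Submodule ℝ (EuclideanSpace ℝ ι))
    (hV : ∀ U ∈ R, U ≤ V) : ∑ U ∈ R, finrank ℝ U ≤ finrank ℝ V := by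
  classical
  induction R using Finset.induction_on generalizing V with
  | empty => simp
  | insert U R hU ih =>
    rw [sum_insert hU]
    have h1 := ih (fun W hW W' hW' h => hR W (mem_insert_of_mem hW) W' (mem_insert_of_mem hW') h)
      (Uᗮ ⊓ V) (fun W hW => le_inf (by
        have h2 := hR U (mem_insert_self U R) W (mem_insert_of_mem hW) (fun h => hU (h ▸ hW))
        exact h2.symm.le) (hV W (mem_insert_of_mem hW)))
    have h2 := Submodule.finrank_add_inf_finrank_orthogonal (hV U (mem_insert_self U R))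
    omega

/-- Representatives of the minimal subspaces inside an invariant subspace. -/
theorem exists_reps_in (V : Submodule ℝ (EuclideanSpace ℝ ι)) :
    ∃ R : Finset (Submodule ℝ (EuclideanSpace ℝ ι)), (∀ U ∈ R, C.Mnl U ∧ U ≤ V) ∧
    (∀ W, C.Mnl W → W ≤ V → ∃ U ∈ R, C.Img U W) ∧
    ∑ U ∈ R, finrank ℝ U ≤ finrank ℝ V := by
  classical
  let S : Set ℕ := {m | ∃ R : Finset (Submodule ℝ (EuclideanSpace ℝ ι)),
    (∀ U ∈ R, C.Mnl U ∧ U ≤ V) ∧ (∀ U ∈ R, ∀ W ∈ R, U ≠ W → U ⟂ W) ∧ R.card = m}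
  have hS0 : S.Nonempty := ⟨0, ∅, by simp, by simp, rfl⟩
  have hSb : BddAbove S := by
    refine ⟨finrank ℝ V, ?_⟩
    rintro m ⟨R, hR1, hR2, rfl⟩
    refine le_trans ?_ (sum_finrank_le R hR2 V fun U hU => (hR1 U hU).2)
    rw [card_eq_sum_ones]
    refine sum_le_sum fun U hU => ?_
    have h1 := (hR1 U hU).1.2.1
    rw [Nat.one_le_iff_ne_zero]
    intro h2
    exact h1 (Submodule.finrank_eq_zero.1 h2)
  obtain ⟨R, hR1, hR2, hcard⟩ := Nat.sSup_mem hS0 hSb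
  refine ⟨R, hR1, ?_, sum_finrank_le R hR2 V fun U hU => (hR1 U hU).2⟩
  intro W hW hWV
  by_contra hcon
  push Not at hcon
  have horth : ∀ U ∈ R, U ⟂ W := fun U hU => (C.orthogonal_or (hR1 U hU).1 hW).resolve_right
    (hcon U hU)
  have hWR : W ∉ R := by
    intro h
    have h1 := horth W h
    exact hW.2.1 (Submodule.isOrtho_self.1 h1)
  have hmem : R.card + 1 ∈ S := by
    refine ⟨insert W R, ?_, ?_, card_insert_of_notMem hWR⟩
    · intro U hU
      rcases mem_insert.1 hU with rfl | hU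
      · exact ⟨hW, hWV⟩
      · exact hR1 U hU
    · intro U hU U' hU' hne
      rcases mem_insert.1 hU with hU | hU <;> rcases mem_insert.1 hU' with hU' | hU'
      · exact absurd (hU.trans hU'.symm) hne
      · rw [hU]
        exact (horth U' hU').symm
      · rw [hU']
        exact horth U hU
      · exact hR2 U hU U' hU' hne
  have := le_csSup hSb hmem
  omega

end Coc

end Pool.MP43e44c
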