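import Pool.Agent.H.MP_43e44c_ag.SB.Def
import Pool.Agent.H.MP_43e44c_ag.SB.Net

/-!
The norm of the operator attached to a sign vector.
-/

set_option autoImplicit false

open Finset Module

namespace Pool.MP43e44c

variable {ι : Type*} [Fintype ι] [DecidableEq ι]

/-- The exponential moments of linear forms in signs. -/
theorem ps_mgf (y : EuclideanSpace ℝ ι) (t : ℝ) :
    ∑ v : ι → Bool, Real.exp (t * inner ℝ (sv v) y)
      ≤ 2 ^ Fintype.card ι * Real.exp (t ^ 2 * ‖y‖ ^ 2 / 2) := by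
  have h1 : ∀ v : ι → Bool, Real.exp (t * inner ℝ (sv v) y)
      = ∏ i, Real.exp (t * ((if v i then 1 else -1 : ℝ) * y i)) := by
    intro v
    rw [← Real.exp_sum, ← mul_sum, PiLp.inner_apply]
    congr 2
    refine sum_congr rfl fun i _ => ?_
    simp only [RCLike.inner_apply, conj_trivial]
    rw [mul_comm]
    rfl
  have h2 := (Finset.prod_univ_sum (fun _ : ι => (Finset.univ : Finset Bool))
    (fun (i : ι) (b : Bool) => Real.exp (t * ((if b then 1 else -1 : ℝ) * y i)))).symm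
  rw [Fintype.piFinset_univ] at h2
  rw [sum_congr rfl fun v _ => h1 v, h2]
  have h3 : ∀ i : ι, ∑ b : Bool, Real.exp (t * ((if b then 1 else -1 : ℝ) * y i))
      = 2 * Real.cosh (t * y i) := by
    intro i
    rw [Fintype.sum_bool, Real.cosh_eq]
    simp only [if_true, Bool.false_eq_true, if_false, one_mul]
    rw [show t * (-1 * y i) = -(t * y i) by ring]
    ring
  rw [prod_congr rfl fun i _ => h3 i, prod_mul_distrib, prod_const, card_univ]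
  refine mul_le_mul_of_nonneg_left ?_ (by positivity)
  have h4 : t ^ 2 * ‖y‖ ^ 2 / 2 = ∑ i, (t * y i) ^ 2 / 2 := by
    rw [EuclideanSpace.norm_eq, Real.sq_sqrt (sum_nonneg fun i _ => by positivity), mul_sum,
      sum_div]
    refine sum_congr rfl fun i _ => ?_
    rw [Real.norm_eq_abs, sq_abs]
    ring
  rw [h4, Real.exp_sum]
  exact prod_le_prod (fun i _ => (Real.cosh_pos _).le) fun i _ => Real.cosh_le_exp_half_sq _

open Classical in
/-- Hoeffding's inequality. -/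
theorem ps_hoeffding {y : EuclideanSpace ℝ ι} (hy : ‖y‖ ≤ 1) {t : ℝ} (ht : 0 ≤ t) :
    ((univ.filter fun v : ι → Bool => t < inner ℝ (sv v) y).card : ℝ)
      ≤ 2 ^ Fintype.card ι * Real.exp (-t ^ 2 / 2) := by
  have h1 : ((univ.filter fun v : ι → Bool => t < inner ℝ (sv v) y).card : ℝ) *
      Real.exp (t * t) ≤ 2 ^ Fintype.card ι * Real.exp (t ^ 2 * ‖y‖ ^ 2 / 2) := by
    refine le_trans ?_ (ps_mgf y t)
    rw [card_eq_sum_ones, Nat.cast_sum, sum_mul]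
    refine le_trans (sum_le_sum fun v hv => ?_)
      (sum_le_sum_of_subset_of_nonneg (subset_univ (univ.filter fun v : ι → Bool =>
        t < inner ℝ (sv v) y)) fun v _ _ => (Real.exp_pos _).le)
    rw [Nat.cast_one, one_mul]
    exact Real.exp_le_exp.2 (mul_le_mul_of_nonneg_left (mem_filter.1 hv).2.le ht)
  have h2 : Real.exp (t ^ 2 * ‖y‖ ^ 2 / 2) ≤ Real.exp (t ^ 2 / 2) := by
    apply Real.exp_le_exp.2
    have h3 : ‖y‖ ^ 2 ≤ 1 := pow_le_one₀ (norm_nonneg _) hy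
    have h4 : 0 ≤ t ^ 2 := by positivity
    nlinarith
  have h5 : ((univ.filter fun v : ι → Bool => t < inner ℝ (sv v) y).card : ℝ) * Real.exp (t * t)
      ≤ (2 ^ Fintype.card ι * Real.exp (-t ^ 2 / 2)) * Real.exp (t * t) := by
    rw [mul_assoc, ← Real.exp_add, show -t ^ 2 / 2 + t * t = t ^ 2 / 2 by ring]
    exact h1.trans (mul_le_mul_of_nonneg_left h2 (by positivity))
  exact le_of_mul_le_mul_right h5 (Real.exp_pos _)

section Abstract

variable {W : Type*} [NormedAddCommGroup W] [NormedSpace ℝ W]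

omit [DecidableEq ι] in
theorem opn_pos {T : W →L[ℝ] EuclideanSpace ℝ ι} (h : T ≠ 0) : 0 < ‖T‖ := norm_pos_iff.2 h

omit [DecidableEq ι] in
theorem opn_ne_zero {T : W →L[ℝ] EuclideanSpace ℝ ι} (h : ‖T‖ = 1) : T ≠ 0 := by
  rintro rfl
  rw [norm_zero] at h
  norm_num at h

omit [DecidableEq ι] in
theorem opn_normalize {T : W →L[ℝ] EuclideanSpace ℝ ι} (h : T ≠ 0) : ‖‖T‖⁻¹ • T‖ = 1 := by
  rw [norm_smul, norm_inv, norm_norm, inv_mul_cancel₀ (opn_pos h).ne']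

omit [DecidableEq ι] in
theorem opn_sub_rev (S T : W →L[ℝ] EuclideanSpace ℝ ι) : ‖S - T‖ = ‖T - S‖ := norm_sub_rev S T

/-- The norm of the operator attached to a sign vector. -/
noncomputable def nrm (H : Submodule ℝ (W →L[ℝ] EuclideanSpace ℝ ι)) (v : ι → Bool) : ℝ :=
  sSup {r | ∃ T ∈ H, ∃ x : W, ‖T‖ ≤ 1 ∧ ‖x‖ ≤ 1 ∧ r = inner ℝ (sv v) (T x)}

omit [DecidableEq ι] in
theorem le_nrm (H : Submodule ℝ (W →L[ℝ] EuclideanSpace ℝ ι)) (v : ι → Bool)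
    {T : W →L[ℝ] EuclideanSpace ℝ ι} (hT : T ∈ H) (hT1 : ‖T‖ ≤ 1) {x : W} (hx : ‖x‖ ≤ 1) :
    inner ℝ (sv v) (T x) ≤ nrm H v := by
  refine le_csSup ⟨‖sv v‖, ?_⟩ ⟨T, hT, x, hT1, hx, rfl⟩
  rintro _ ⟨S, -, y, hS, hy, rfl⟩
  refine (real_inner_le_norm _ _).trans ?_
  have h1 : ‖S y‖ ≤ 1 := (S.le_opNorm y).trans (by
    have := S.opNorm_nonneg
    have := norm_nonneg y
    nlinarith)
  have := norm_nonneg (sv v)
  nlinarith

omit [DecidableEq ι] in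
theorem nrm_nonneg (H : Submodule ℝ (W →L[ℝ] EuclideanSpace ℝ ι)) (v : ι → Bool) :
    0 ≤ nrm H v := by
  have h1 := le_nrm H v (Submodule.zero_mem H) (by rw [norm_zero]; norm_num) (x := 0)
    (by rw [norm_zero]; norm_num)
  simpa using h1

omit [DecidableEq ι] in
theorem homog {H : Submodule ℝ (W →L[ℝ] EuclideanSpace ℝ ι)} {v : ι → Bool} {c : ℝ}
    (h : ∀ T ∈ H, ‖T‖ = 1 → ∀ x : W, ‖x‖ = 1 → inner ℝ (sv v) (T x) ≤ c)
    {T : W →L[ℝ] EuclideanSpace ℝ ι} (hT : T ∈ H) (x : W) :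
    inner ℝ (sv v) (T x) ≤ c * ‖T‖ * ‖x‖ := by
  by_cases hT0 : T = 0
  · rw [hT0]
    simp
  by_cases hx0 : x = 0
  · rw [hx0]
    simp
  have hT' : 0 < ‖T‖ := by
    rw [norm_pos_iff]
    exact hT0
  have hx' : 0 < ‖x‖ := norm_pos_iff.2 hx0
  have h1 := h (‖T‖⁻¹ • T) (H.smul_mem _ hT)
    (by rw [norm_smul, norm_inv, norm_norm, inv_mul_cancel₀ hT'.ne'])
    (‖x‖⁻¹ • x) (by rw [norm_smul, norm_inv, norm_norm, inv_mul_cancel₀ hx'.ne'])
  rw [map_smul, _root_.smul_apply, inner_smul_right, inner_smul_right] at h1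
  have h2 : inner ℝ (sv v) (T x) = ‖T‖ * ‖x‖ * (‖x‖⁻¹ * (‖T‖⁻¹ * inner ℝ (sv v) (T x))) := by
    field_simp
  rw [h2]
  calc ‖T‖ * ‖x‖ * (‖x‖⁻¹ * (‖T‖⁻¹ * inner ℝ (sv v) (T x))) ≤ ‖T‖ * ‖x‖ * c := by gcongr
    _ = _ := by ring

omit [DecidableEq ι] in
theorem inner_le_nrm (H : Submodule ℝ (W →L[ℝ] EuclideanSpace ℝ ι)) (v : ι → Bool)
    {T : W →L[ℝ] EuclideanSpace ℝ ι} (hT : T ∈ H) (x : W) :
    inner ℝ (sv v) (T x) ≤ nrm H v * ‖T‖ * ‖x‖ :=
  homog (fun _ hT hT1 _ hx => le_nrm H v hT hT1.le hx.le) hT x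

omit [DecidableEq ι] in
/-- Nets of spaces of operators. -/
theorem exists_net_hom [FiniteDimensional ℝ W] (H : Submodule ℝ (W →L[ℝ] EuclideanSpace ℝ ι))
    {h : ℕ} (hh : finrank ℝ H = h) (h1 : 1 ≤ h) {ε : ℝ} (hε : 0 < ε) (hε1 : ε ≤ 1) :
    ∃ s : Finset (W →L[ℝ] EuclideanSpace ℝ ι), (∀ T ∈ s, T ∈ H ∧ ‖T‖ = 1) ∧
      (∀ T ∈ H, ‖T‖ = 1 → ∃ S ∈ s, ‖T - S‖ ≤ ε) ∧
      (s.card : ℝ) ≤ 2 * h * (1 + 2 / ε) ^ (h - 1) := by
  classical
  obtain ⟨s, hs1, hs2, hs3⟩ := exists_net (H := H) hh h1 hε hε1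
  refine ⟨s.image Subtype.val, ?_, ?_, ?_⟩
  · intro T hT
    obtain ⟨S, hS, rfl⟩ := mem_image.1 hT
    exact ⟨S.2, hs1 S hS⟩
  · intro T hT hT1
    obtain ⟨S, hS, hTS⟩ := hs2 ⟨T, hT⟩ hT1
    exact ⟨S, mem_image_of_mem _ hS, hTS⟩
  · refine le_trans ?_ hs3
    exact_mod_cast card_image_le

open Classical in
/-- The tail of the operator norm. -/
theorem ps_tail [FiniteDimensional ℝ W] (H : Submodule ℝ (W →L[ℝ] EuclideanSpace ℝ ι)) {N h : ℕ}
    (hN : finrank ℝ W = N) (hN1 : 1 ≤ N) (hh : finrank ℝ H = h) (hh1 : 1 ≤ h) {Λ : ℝ}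
    (hΛ : 0 ≤ Λ) :
    ((univ.filter fun v : ι → Bool => 2 * Λ < nrm H v).card : ℝ)
      ≤ 2 ^ Fintype.card ι * ((2 * h * 9 ^ (h - 1)) * (2 * N * 9 ^ (N - 1)) *
        Real.exp (-Λ ^ 2 / 2)) := by
  have h9 : (1 : ℝ) + 2 / (1 / 4) = 9 := by norm_num
  obtain ⟨s, hs1, hs2, hs3⟩ := exists_net_hom H hh hh1 (ε := 1 / 4) (by norm_num) (by norm_num)
  obtain ⟨r, hr1, hr2, hr3⟩ := exists_net (H := W) hN hN1 (ε := 1 / 4) (by norm_num) (by norm_num)
  rw [h9] at hs3 hr3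
  have key : ∀ v : ι → Bool, 2 * Λ < nrm H v →
      ∃ T ∈ s, ∃ x ∈ r, Λ < inner ℝ (sv v) (T x) := by
    intro v hv
    by_contra hcon
    push Not at hcon
    have hM0 : 0 ≤ nrm H v := nrm_nonneg H v
    have h1 : ∀ T ∈ H, ‖T‖ = 1 → ∀ x : W, ‖x‖ = 1 →
        inner ℝ (sv v) (T x) ≤ Λ + nrm H v / 2 := by
      intro T hT hT1 x hx
      obtain ⟨T', hT', hTT⟩ := hs2 T hT hT1
      obtain ⟨x', hx', hxx⟩ := hr2 x hx
      obtain ⟨hT'H, hT'1⟩ := hs1 T' hT'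
      have e1 : inner ℝ (sv v) (T x) = inner ℝ (sv v) (T' x')
          + inner ℝ (sv v) ((T - T') x) + inner ℝ (sv v) (T' (x - x')) := by
        rw [map_sub, _root_.sub_apply, inner_sub_right, inner_sub_right]
        ring
      have e2 : inner ℝ (sv v) ((T - T') x) ≤ nrm H v * (1 / 4) * 1 := by
        refine (inner_le_nrm H v (H.sub_mem hT hT'H) x).trans ?_
        rw [hx]
        gcongr
      have e3 : inner ℝ (sv v) (T' (x - x')) ≤ nrm H v * 1 * (1 / 4) := by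
        refine (inner_le_nrm H v hT'H (x - x')).trans ?_
        rw [hT'1]
        gcongr
      have e4 := hcon T' hT' x' hx'
      rw [e1]
      linarith
    have h4 : nrm H v ≤ Λ + nrm H v / 2 := by
      refine csSup_le ⟨0, 0, Submodule.zero_mem H, 0, by rw [norm_zero]; norm_num,
        by rw [norm_zero]; norm_num, by simp⟩ ?_
      rintro _ ⟨T, hT, x, hT1, hx1, rfl⟩
      refine (homog h1 hT x).trans ?_
      have h5 : 0 ≤ Λ + nrm H v / 2 := by linarith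
      have h6 := T.opNorm_nonneg
      calc (Λ + nrm H v / 2) * ‖T‖ * ‖x‖ ≤ (Λ + nrm H v / 2) * 1 * 1 := by gcongr
        _ = _ := by ring
    linarith
  have hsub : (univ.filter fun v : ι → Bool => 2 * Λ < nrm H v) ⊆
      (s ×ˢ r).biUnion fun p => univ.filter fun v : ι → Bool =>
        Λ < inner ℝ (sv v) (p.1 p.2) := by
    intro v hv
    obtain ⟨T, hT, x, hx, h1⟩ := key v (mem_filter.1 hv).2
    rw [mem_biUnion]
    exact ⟨(T, x), mem_product.2 ⟨hT, hx⟩, mem_filter.2 ⟨mem_univ _, h1⟩⟩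
  have h1 : ((univ.filter fun v : ι → Bool => 2 * Λ < nrm H v).card : ℝ)
      ≤ ∑ p ∈ s ×ˢ r, ((univ.filter fun v : ι → Bool =>
        Λ < inner ℝ (sv v) (p.1 p.2)).card : ℝ) := by
    exact_mod_cast (card_le_card hsub).trans card_biUnion_le
  have h2 : ∀ p ∈ s ×ˢ r, ((univ.filter fun v : ι → Bool =>
      Λ < inner ℝ (sv v) (p.1 p.2)).card : ℝ)
      ≤ 2 ^ Fintype.card ι * Real.exp (-Λ ^ 2 / 2) := by
    rintro ⟨T, x⟩ hp
    obtain ⟨hT, hx⟩ := mem_product.1 hp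
    refine ps_hoeffding (y := T x) ?_ hΛ
    refine (T.le_opNorm x).trans ?_
    rw [(hs1 T hT).2, hr1 x hx, one_mul]
  refine h1.trans ((sum_le_sum h2).trans ?_)
  rw [sum_const, nsmul_eq_mul, card_product]
  push_cast
  calc (s.card : ℝ) * r.card * (2 ^ Fintype.card ι * Real.exp (-Λ ^ 2 / 2))
      ≤ (2 * h * 9 ^ (h - 1)) * (2 * N * 9 ^ (N - 1)) *
        (2 ^ Fintype.card ι * Real.exp (-Λ ^ 2 / 2)) := by gcongr
    _ = _ := by ring

end Abstract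

end Pool.MP43e44c
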