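import Pool.Agent.H.MP_43e44c_ag.SB.Uni
import Pool.Agent.H.MP_43e44c_ag.PS.Tail
import Pool.Agent.H.MP_43e44c_ag.PS.Img

/-!
Sign vectors orthogonal to an image of a minimal subspace.
-/

set_option autoImplicit false

open Finset Module

namespace Pool.MP43e44c

/-- The sign vector is orthogonal to an image of the subspace. -/
def Deg {Γ ι : Type*} [Group Γ] [MulAction Γ ι] [Fintype ι] (C : Coc Γ ι)
    (U : Submodule ℝ (EuclideanSpace ℝ ι)) (v : ι → Bool) : Prop :=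
  ∃ W, C.Img U W ∧ SOrth v W

variable {Γ ι : Type*} [Group Γ] [Fintype Γ] [MulAction Γ ι] [Fintype ι] [DecidableEq ι]
  [MulAction.IsPretransitive Γ ι]

open Classical in
/-- The number of sign vectors orthogonal to an invariant subspace. -/
theorem sorth_le (C : Coc Γ ι) {U : Submodule ℝ (EuclideanSpace ℝ ι)} (hU : C.Inv U) {N : ℕ}
    (hN : finrank ℝ U = N) (hN0 : 0 < N) {k : ℝ} (hc : (Fintype.card ι : ℝ) = k * N) :
    ((univ.filter fun v : ι → Bool => SOrth v U).card : ℝ)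
      ≤ 2 ^ Fintype.card ι * (Real.exp (1 / 2) * gk k) ^ N := by
  have h1 := small_ball C hU hN hN0 hc (ρ := 0) le_rfl
  rw [show (0 : ℝ) ^ 2 / 2 = 0 by norm_num, Real.exp_zero, one_mul] at h1
  refine le_trans ?_ h1
  refine Nat.cast_le.2 (card_le_card ?_)
  intro v hv
  have h2 := (mem_filter.1 hv).2
  refine mem_filter.2 ⟨mem_univ _, ?_⟩
  have h3 : U.starProjection (sv v) = 0 := by
    rw [Submodule.starProjection_apply_eq_zero_iff, Submodule.mem_orthogonal]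
    intro x hx
    rw [real_inner_comm]
    exact h2 x hx
  rw [h3, norm_zero]
  norm_num

omit [Fintype Γ] [DecidableEq ι] [MulAction.IsPretransitive Γ ι] in
theorem finrank_hom_pos {C : Coc Γ ι} {U : Submodule ℝ (EuclideanSpace ℝ ι)} (hU : C.Mnl U) :
    1 ≤ finrank ℝ (C.Hom U) := by
  rw [Nat.one_le_iff_ne_zero]
  intro h
  have h1 : C.Hom U = ⊥ := Submodule.finrank_eq_zero.1 h
  have h2 : U.subtypeL ∈ C.Hom U := Coc.subtype_mem_hom U
  rw [h1] at h2
  exact Coc.subtype_ne_zero hU.2.1 ((Submodule.mem_bot ℝ).1 h2)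

open Classical in
/-- The number of sign vectors orthogonal to an image of a minimal subspace. -/
theorem deg_le (C : Coc Γ ι) {U : Submodule ℝ (EuclideanSpace ℝ ι)} (hU : C.Mnl U)
    {N : ℕ} (hN : finrank ℝ U = N) {h : ℕ} (hh : finrank ℝ (C.Hom U) = h) {k : ℝ}
    (hc : (Fintype.card ι : ℝ) = k * N) (hk : 1 ≤ k) {Λ : ℝ} (hΛ : 1 ≤ Λ) :
    ((univ.filter fun v : ι → Bool => Deg C U v).card : ℝ)
      ≤ 2 ^ Fintype.card ι * (2 * h * (1 + 8 * (Λ * Real.sqrt k)) ^ (h - 1) *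
          (Real.exp ((1 / 4) ^ 2 / 2) * (Real.exp (1 / 2) * gk k)) ^ N
        + (2 * h * 9 ^ (h - 1)) * (2 * N * 9 ^ (N - 1)) * Real.exp (-Λ ^ 2 * N / 8)) := by
  have hN0 : 0 < N := by
    rw [Nat.pos_iff_ne_zero, ← hN]
    intro h0
    exact hU.2.1 (Submodule.finrank_eq_zero.1 h0)
  have hh1 : 1 ≤ h := hh ▸ finrank_hom_pos hU
  have hNR : (0 : ℝ) < N := by exact_mod_cast hN0
  have hsk : 1 ≤ Real.sqrt k := Real.one_le_sqrt.2 hk
  have hsk0 : 0 < Real.sqrt k := by linarith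
  have hΛ0 : 0 < Λ := by linarith
  set ε : ℝ := 1 / (4 * (Λ * Real.sqrt k)) with hε
  have hε0 : 0 < ε := by positivity
  have hε1 : ε ≤ 1 := by
    rw [hε, div_le_one (by positivity)]
    nlinarith
  obtain ⟨s, hs1, hs2, hs3⟩ := exists_net_hom (C.Hom U) hh hh1 hε0 hε1
  have hnet : (1 : ℝ) + 2 / ε = 1 + 8 * (Λ * Real.sqrt k) := by
    rw [hε]
    field_simp
    ring
  rw [hnet] at hs3
  -- the tail
  have htail := ps_tail (C.Hom U) hN hN0 hh hh1 (Λ := Λ * Real.sqrt N / 2) (by positivity)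
  have hexp : -(Λ * Real.sqrt N / 2) ^ 2 / 2 = -Λ ^ 2 * N / 8 := by
    rw [div_pow, mul_pow, Real.sq_sqrt hNR.le]
    ring
  rw [hexp] at htail
  -- small balls
  have hball : ∀ S ∈ s, ((univ.filter fun v : ι → Bool =>
      ‖(LinearMap.range (S : U →ₗ[ℝ] EuclideanSpace ℝ ι)).starProjection (sv v)‖ ^ 2
        ≤ (1 / 4) ^ 2 * (N / k)).card : ℝ)
      ≤ 2 ^ Fintype.card ι *
        (Real.exp ((1 / 4) ^ 2 / 2) * (Real.exp (1 / 2) * gk k)) ^ N := by
    intro S hS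
    obtain ⟨hSH, hS1⟩ := hs1 S hS
    have hS0 : S ≠ 0 := opn_ne_zero hS1
    exact small_ball C (C.inv_range hU.1 hSH) ((Coc.finrank_range_hom hU hSH hS0).trans hN) hN0 hc
      (by norm_num)
  have hsub : (univ.filter fun v : ι → Bool => Deg C U v) ⊆
      (s.biUnion fun S => univ.filter fun v : ι → Bool =>
        ‖(LinearMap.range (S : U →ₗ[ℝ] EuclideanSpace ℝ ι)).starProjection (sv v)‖ ^ 2
          ≤ (1 / 4) ^ 2 * (N / k)) ∪
      (univ.filter fun v : ι → Bool => 2 * (Λ * Real.sqrt N / 2) < nrm (C.Hom U) v) := by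
    intro v hv
    obtain ⟨_, ⟨T, hT, hT0, rfl⟩, hor⟩ := (mem_filter.1 hv).2
    rw [mem_union]
    by_cases hnr : 2 * (Λ * Real.sqrt N / 2) < nrm (C.Hom U) v
    · right
      exact mem_filter.2 ⟨mem_univ _, hnr⟩
    left
    push Not at hnr
    obtain ⟨S, hS, hTS⟩ := hs2 (‖T‖⁻¹ • T) ((C.Hom U).smul_mem _ hT) (opn_normalize hT0)
    obtain ⟨hSH, hS1⟩ := hs1 S hS
    rw [mem_biUnion]
    refine ⟨S, hS, mem_filter.2 ⟨mem_univ _, ?_⟩⟩
    set U' := LinearMap.range (S : U →ₗ[ℝ] EuclideanSpace ℝ ι) with hU'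
    set p := U'.starProjection (sv v) with hp
    have hpU : p ∈ U' := Submodule.starProjection_apply_mem _ _
    obtain ⟨x, hx⟩ := hpU
    have hx' : S x = p := hx
    have hxn : ‖x‖ = ‖p‖ := by
      rw [← hx', C.norm_hom hU hSH, hS1, one_mul]
    have h1 : inner ℝ (sv v) p = ‖p‖ ^ 2 := by
      have h2 : inner ℝ (sv v - p) p = (0 : ℝ) :=
        Submodule.starProjection_inner_eq_zero (K := U') (sv v) p
          (Submodule.starProjection_apply_mem _ _)
      rw [inner_sub_left, real_inner_self_eq_norm_sq] at h2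
      linarith
    have h2 : inner ℝ (sv v) ((‖T‖⁻¹ • T) x) = (0 : ℝ) := by
      rw [_root_.smul_apply, inner_smul_right, hor (T x) ⟨x, rfl⟩, mul_zero]
    have h3 : inner ℝ (sv v) p = inner ℝ (sv v) ((S - ‖T‖⁻¹ • T) x) := by
      rw [_root_.sub_apply, inner_sub_right, h2, sub_zero, hx']
    have h4 : ‖p‖ ^ 2 ≤ (Λ * Real.sqrt N) * ε * ‖p‖ := by
      rw [← h1, h3]
      refine (inner_le_nrm (C.Hom U) v ((C.Hom U).sub_mem hSH ((C.Hom U).smul_mem _ hT)) x).trans ?_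
      rw [hxn]
      have h5 : nrm (C.Hom U) v ≤ Λ * Real.sqrt N := by linarith
      have h6 : ‖S - ‖T‖⁻¹ • T‖ ≤ ε := (opn_sub_rev _ _).trans_le hTS
      have h7 := (S - ‖T‖⁻¹ • T).opNorm_nonneg
      gcongr
    have h5 : ‖p‖ ≤ Λ * Real.sqrt N * ε := by
      by_cases hp0 : ‖p‖ = 0
      · rw [hp0]
        positivity
      · have hp1 : 0 < ‖p‖ := lt_of_le_of_ne (norm_nonneg _) (Ne.symm hp0)
        refine le_of_mul_le_mul_right ?_ hp1
        rw [← sq]
        exact h4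
    have h6 : Λ * Real.sqrt N * ε = 1 / 4 * (Real.sqrt N / Real.sqrt k) := by
      rw [hε]
      field_simp
    rw [h6] at h5
    calc ‖p‖ ^ 2 ≤ (1 / 4 * (Real.sqrt N / Real.sqrt k)) ^ 2 := by
          gcongr
      _ = (1 / 4) ^ 2 * (N / k) := by
          rw [mul_pow, div_pow (Real.sqrt N), Real.sq_sqrt hNR.le, Real.sq_sqrt (by linarith)]
  have hcard : ((univ.filter fun v : ι → Bool => Deg C U v).card : ℝ)
      ≤ s.card * (2 ^ Fintype.card ι *
        (Real.exp ((1 / 4) ^ 2 / 2) * (Real.exp (1 / 2) * gk k)) ^ N)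
      + 2 ^ Fintype.card ι * ((2 * h * 9 ^ (h - 1)) * (2 * N * 9 ^ (N - 1)) *
        Real.exp (-Λ ^ 2 * N / 8)) := by
    refine le_trans (Nat.cast_le.2 ((card_le_card hsub).trans (card_union_le _ _))) ?_
    rw [Nat.cast_add]
    refine add_le_add ?_ htail
    refine le_trans (Nat.cast_le.2 card_biUnion_le) ?_
    rw [Nat.cast_sum]
    refine (sum_le_sum hball).trans ?_
    rw [sum_const, nsmul_eq_mul]
  refine hcard.trans ?_
  have hgk : 0 ≤ gk k := gk_nonneg k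
  calc (s.card : ℝ) * (2 ^ Fintype.card ι *
        (Real.exp ((1 / 4) ^ 2 / 2) * (Real.exp (1 / 2) * gk k)) ^ N)
      + 2 ^ Fintype.card ι * ((2 * h * 9 ^ (h - 1)) * (2 * N * 9 ^ (N - 1)) *
        Real.exp (-Λ ^ 2 * N / 8))
      ≤ (2 * h * (1 + 8 * (Λ * Real.sqrt k)) ^ (h - 1)) * (2 ^ Fintype.card ι *
        (Real.exp ((1 / 4) ^ 2 / 2) * (Real.exp (1 / 2) * gk k)) ^ N)
      + 2 ^ Fintype.card ι * ((2 * h * 9 ^ (h - 1)) * (2 * N * 9 ^ (N - 1)) *
        Real.exp (-Λ ^ 2 * N / 8)) := by gcongr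
    _ = _ := by ring

end Pool.MP43e44c
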