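import Pool.Agent.H.MP_43e44c_ag.SB.Core
import Pool.Agent.H.MP_43e44c_ag.PS.Single
import Pool.Agent.H.MP_43e44c_ag.PS.Num2

/-!
Sign vectors orthogonal to a minimal subspace of small multiplicity.
-/

set_option autoImplicit false

open Finset Module

namespace Pool.MP43e44c

/-- The constant. -/
noncomputable def C₄ : ℝ := nonspecial_le.choose

theorem C₄_pos : 0 < C₄ := nonspecial_le.choose_spec.1

/-- The numerical estimate for all types of dimension at least three. -/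
theorem nonspecial3_le (n N h : ℕ) (k κ : ℝ) (hn : 2 ≤ n) (hN : 3 ≤ N) (hh1 : 1 ≤ h)
    (hh : 2 * h ≤ N) (hhN : h * N ≤ 4 * n) (hNn : 2 * N ≤ n) (hk : (n : ℝ) = k * N)
    (hκ0 : 0 ≤ κ) (hκ1 : κ ≤ 97 / 100) (hκ : κ ≤ 13 / 5 / Real.sqrt k) :
    2 * h * (1 + 8 * (lam n N * Real.sqrt k)) ^ (h - 1) * κ ^ N * (n * Real.sqrt n)
      ≤ (C₄ + 200) * N * Real.sqrt (Real.log n) := by
  have hL := half_lt_log hn
  have hsL : 1 / 2 ≤ Real.sqrt (Real.log n) := Real.le_sqrt_of_sq_le (by linarith)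
  rcases Nat.eq_or_lt_of_le hN with h3 | h3
  · have hh' : h = 1 := by omega
    subst hh'
    rw [← h3] at hk ⊢
    have hnR : (0 : ℝ) < n := by exact_mod_cast (by omega : 0 < n)
    have hk0 : 0 < k := by
      push_cast at hk
      linarith
    have h4 : κ ^ 3 * (n * Real.sqrt n) ≤ 92 := by
      have e1 : Real.sqrt n = Real.sqrt 3 * Real.sqrt k := by
        rw [← Real.sqrt_mul (by norm_num), hk]
        congr 1
        push_cast
        ring
      have e2 : κ ^ 3 ≤ (13 / 5 / Real.sqrt k) ^ 3 := pow_le_pow_left₀ hκ0 hκ 3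
      have e3 : Real.sqrt k ^ 2 = k := Real.sq_sqrt hk0.le
      have e4 : 0 < Real.sqrt k := Real.sqrt_pos.2 hk0
      have e5 : Real.sqrt 3 ≤ 1.74 := by
        rw [Real.sqrt_le_left (by norm_num)]
        norm_num
      calc κ ^ 3 * (n * Real.sqrt n) ≤ (13 / 5 / Real.sqrt k) ^ 3 * (n * Real.sqrt n) := by
            gcongr
        _ = (13 / 5) ^ 3 * 3 * Real.sqrt 3 := by
            rw [e1, hk, div_pow]
            have e6 : Real.sqrt k ^ 3 = k * Real.sqrt k := by rw [pow_succ, e3]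
            rw [e6]
            field_simp
            push_cast
            ring
        _ ≤ (13 / 5) ^ 3 * 3 * 1.74 := by gcongr
        _ ≤ 92 := by norm_num
    have h5 := C₄_pos
    simp only [Nat.sub_self, pow_zero, mul_one]
    calc 2 * ((1 : ℕ) : ℝ) * κ ^ 3 * (n * Real.sqrt n) = 2 * (κ ^ 3 * (n * Real.sqrt n)) := by
          push_cast; ring
      _ ≤ 2 * 92 := by gcongr
      _ ≤ (0 + 200) * (3 : ℕ) * (1 / 2) := by norm_num
      _ ≤ (C₄ + 200) * (3 : ℕ) * Real.sqrt (Real.log n) := by gcongr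
  · have h5 := nonspecial_le.choose_spec.2 n N h k κ hn h3 hh1 hh hhN hNn hk hκ0 hκ1 hκ
    refine h5.trans ?_
    have h6 : C₄ ≤ C₄ + 200 := by linarith
    have h7 : nonspecial_le.choose = C₄ := rfl
    rw [h7]
    gcongr

variable {Γ ι : Type*} [Group Γ] [Fintype Γ] [MulAction Γ ι] [Fintype ι] [DecidableEq ι]
  [MulAction.IsPretransitive Γ ι]

open Classical in
/-- One type of small dimension. -/
theorem half_small (C : Coc Γ ι) {U : Submodule ℝ (EuclideanSpace ℝ ι)} (hU : C.Mnl U)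
    (hn : 2 ≤ Fintype.card ι) (hN : 3 ≤ finrank ℝ U)
    (hh : 2 * finrank ℝ (C.Hom U) ≤ finrank ℝ U) (hNn : 2 * finrank ℝ U ≤ Fintype.card ι) :
    ((univ.filter fun v : ι → Bool => Deg C U v).card : ℝ) *
        (Fintype.card ι * Real.sqrt (Fintype.card ι))
      ≤ (C₄ + 202) * finrank ℝ U * Real.sqrt (Real.log (Fintype.card ι)) *
        2 ^ Fintype.card ι := by
  set n := Fintype.card ι with hndef
  set N := finrank ℝ U with hNdef
  set h := finrank ℝ (C.Hom U) with hhdef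
  have hne : Nonempty ι := Fintype.card_pos_iff.1 (by omega)
  have hL := half_lt_log hn
  have hsL : 1 / 2 ≤ Real.sqrt (Real.log n) := Real.le_sqrt_of_sq_le (by linarith)
  have hnR : (0 : ℝ) < n := by exact_mod_cast (by omega : 0 < n)
  have hn1 : (1 : ℝ) ≤ n := by exact_mod_cast (by omega : 1 ≤ n)
  have hNR : (3 : ℝ) ≤ N := by exact_mod_cast hN
  have hN0 : (0 : ℝ) < N := by linarith
  set k : ℝ := n / N with hk
  have hc : (n : ℝ) = k * N := by rw [hk]; field_simp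
  have hk2 : 2 ≤ k := by
    rw [hk, le_div_iff₀ hN0]
    exact_mod_cast hNn
  have hh1 : 1 ≤ h := finrank_hom_pos hU
  set κ := Real.exp ((1 / 4) ^ 2 / 2) * (Real.exp (1 / 2) * gk k) with hκ
  have hκ0 : 0 ≤ κ := mul_nonneg (Real.exp_pos _).le (mul_nonneg (Real.exp_pos _).le (gk_nonneg k))
  have h1 := deg_le C hU (N := N) rfl (h := h) rfl hc (by linarith) (one_le_lam n N)
  have h2 := nonspecial3_le n N h k κ hn hN hh1 hh (C.finrank_hom_mul_le hU) hNn hc hκ0
    (kappa_le hk2) (kappa_le_sqrt hk2)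
  have h3 := tail_le (n := n) (N := N) (h := h) (by omega) hh1 (by omega)
  have h4 : (1 / (n : ℝ) ^ 2) * (n * Real.sqrt n) ≤ 1 := by
    have e1 : Real.sqrt n ≤ n := by
      rw [Real.sqrt_le_iff]
      exact ⟨hnR.le, by nlinarith⟩
    calc (1 / (n : ℝ) ^ 2) * (n * Real.sqrt n) ≤ (1 / (n : ℝ) ^ 2) * (n * n) := by gcongr
      _ = 1 := by field_simp
  have h5 : 1 ≤ 2 * (N * Real.sqrt (Real.log n)) := by nlinarith
  calc ((univ.filter fun v : ι → Bool => Deg C U v).card : ℝ) * (n * Real.sqrt n)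
      ≤ (2 ^ n * (2 * h * (1 + 8 * (lam n N * Real.sqrt k)) ^ (h - 1) * κ ^ N
        + (2 * h * 9 ^ (h - 1)) * (2 * N * 9 ^ (N - 1)) * Real.exp (-(lam n N) ^ 2 * N / 8))) *
        (n * Real.sqrt n) := by gcongr
    _ = 2 ^ n * (2 * h * (1 + 8 * (lam n N * Real.sqrt k)) ^ (h - 1) * κ ^ N * (n * Real.sqrt n))
        + 2 ^ n * (((2 * h * 9 ^ (h - 1)) * (2 * N * 9 ^ (N - 1)) *
          Real.exp (-(lam n N) ^ 2 * N / 8)) * (n * Real.sqrt n)) := by ring
    _ ≤ 2 ^ n * ((C₄ + 200) * N * Real.sqrt (Real.log n))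
        + 2 ^ n * ((1 / (n : ℝ) ^ 2) * (n * Real.sqrt n)) := by gcongr
    _ ≤ 2 ^ n * ((C₄ + 200) * N * Real.sqrt (Real.log n))
        + 2 ^ n * (2 * (N * Real.sqrt (Real.log n))) :=
        add_le_add le_rfl (mul_le_mul_of_nonneg_left (h4.trans h5) (by positivity))
    _ = _ := by ring

open Classical in
omit [Fintype Γ] [MulAction.IsPretransitive Γ ι] in
/-- One type of large dimension. -/
theorem half_large (C : Coc Γ ι) {U : Submodule ℝ (EuclideanSpace ℝ ι)} (hU : C.Mnl U)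
    (hNn : Fintype.card ι < 2 * finrank ℝ U) :
    ((univ.filter fun v : ι → Bool => Deg C U v).card : ℝ) * Real.sqrt (Fintype.card ι)
      ≤ 2 ^ Fintype.card ι := by
  set b := Fintype.card ι with hb
  have h3 : (univ.filter fun v : ι → Bool => Deg C U v) ⊆
      univ.filter fun w : ι → Bool => SOrth w U := by
    intro v hv
    obtain ⟨W, hUW, hv⟩ := (mem_filter.1 hv).2
    have hW := hUW.mnl hU
    have hfr : finrank ℝ W = finrank ℝ U := by
      obtain ⟨T, hT, hT0, rfl⟩ := hUW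
      exact Coc.finrank_range_hom hU hT hT0
    have hint : W ⊓ U ≠ ⊥ := by
      intro h5
      have h6 := Submodule.finrank_sup_add_finrank_inf_eq W U
      rw [h5, finrank_bot, add_zero, hfr] at h6
      have h7 := Submodule.finrank_le (W ⊔ U)
      rw [finrank_euclideanSpace, ← hb] at h7
      omega
    have hWinv : C.Inv (W ⊓ U) := fun g x hx => ⟨hW.1 g x hx.1, hU.1 g x hx.2⟩
    have h5 := hU.2.2 (W ⊓ U) inf_le_right hWinv hint
    have h6 : U ≤ W := by rw [← h5]; exact inf_le_left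
    exact mem_filter.2 ⟨mem_univ _, fun x hx => hv x (h6 hx)⟩
  have h4 := card_le_card h3
  have h5 := card_sorth_le U
  rw [← hb] at h5
  have h7 : Real.sqrt b ≤ 2 ^ finrank ℝ U := by
    rw [Real.sqrt_le_left (by positivity), ← pow_mul]
    have h8 : b < 2 ^ b := Nat.lt_two_pow_self
    have h9 : (2 : ℕ) ^ b ≤ 2 ^ (finrank ℝ U * 2) := Nat.pow_le_pow_right two_pos (by omega)
    exact_mod_cast (h8.le.trans h9)
  calc ((univ.filter fun v : ι → Bool => Deg C U v).card : ℝ) * Real.sqrt b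
      ≤ ((univ.filter fun w : ι → Bool => SOrth w U).card : ℝ) * 2 ^ finrank ℝ U := by
        gcongr
    _ ≤ 2 ^ b := by exact_mod_cast h5

open Classical in
/-- One invariant subspace of dimension two. -/
theorem half_two (C : Coc Γ ι) {U : Submodule ℝ (EuclideanSpace ℝ ι)} (hU : C.Inv U)
    (hn : 4 ≤ Fintype.card ι) (hN : finrank ℝ U = 2) :
    ((univ.filter fun v : ι → Bool => SOrth v U).card : ℝ)
      ≤ 14 / Fintype.card ι * 2 ^ Fintype.card ι := by
  set n := Fintype.card ι with hndef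
  have hnR : (4 : ℝ) ≤ n := by exact_mod_cast hn
  set k : ℝ := n / 2 with hk
  have hk2 : 2 ≤ k := by rw [hk]; linarith
  have hc : (n : ℝ) = k * (2 : ℕ) := by rw [hk]; push_cast; ring
  have h1 := sorth_le C hU hN two_pos hc
  have h2 := kappa_le_sqrt hk2
  have h3 : Real.exp (1 / 2) * gk k ≤ 13 / 5 / Real.sqrt k := by
    refine le_trans ?_ h2
    have h4 : 1 ≤ Real.exp ((1 / 4) ^ 2 / 2) := Real.one_le_exp (by norm_num)
    have h5 : 0 ≤ Real.exp (1 / 2) * gk k := mul_nonneg (Real.exp_pos _).le (gk_nonneg k)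
    nlinarith
  have h4 : (Real.exp (1 / 2) * gk k) ^ 2 ≤ 14 / n := by
    have h5 : 0 ≤ Real.exp (1 / 2) * gk k := mul_nonneg (Real.exp_pos _).le (gk_nonneg k)
    calc (Real.exp (1 / 2) * gk k) ^ 2 ≤ (13 / 5 / Real.sqrt k) ^ 2 := by gcongr
      _ = (13 / 5) ^ 2 / k := by rw [div_pow, Real.sq_sqrt (by linarith)]
      _ = (2 * (13 / 5) ^ 2) / n := by
          rw [hk]
          field_simp
      _ ≤ 14 / n := by
          gcongr
          norm_num
  calc _ ≤ _ := h1
    _ ≤ 2 ^ n * (14 / n) := by gcongr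
    _ = _ := by ring

open Classical in
/-- Sign vectors orthogonal to a minimal subspace of small multiplicity. -/
theorem half_le.{u, v} : ∃ C : ℝ, 0 < C ∧ ∀ (Γ : Type u) (ι : Type v) [Group Γ] [Fintype Γ]
    [MulAction Γ ι] [Fintype ι] [DecidableEq ι] [MulAction.IsPretransitive Γ ι] (C₀ : Coc Γ ι)
    (R₂ : Finset (Submodule ℝ (EuclideanSpace ℝ ι))),
    (∀ U ∈ R₂, C₀.Inv U ∧ finrank ℝ U = 2) →
    (∀ W, C₀.Mnl W → finrank ℝ W = 2 → finrank ℝ (C₀.Hom W) = 1 → ∀ v : ι → Bool,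
      SOrth v W → ∃ U ∈ R₂, SOrth v U) → 2 ≤ Fintype.card ι →
    ((univ.filter fun v : ι → Bool => ∃ W, C₀.Mnl W ∧
        2 * finrank ℝ (C₀.Hom W) ≤ finrank ℝ W ∧ SOrth v W).card : ℝ)
      ≤ C * (Real.sqrt (Real.log (Fintype.card ι) / Fintype.card ι)
        + R₂.card / Fintype.card ι) * 2 ^ Fintype.card ι := by
  have hC4 := C₄_pos
  refine ⟨C₄ + 220, by linarith, ?_⟩
  intro Γ ι _ _ _ _ _ _ C₀ R₂ hR₂ hR₂' hn
  set n := Fintype.card ι with hndef
  have hL := half_lt_log hn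
  have hsL : 1 / 2 ≤ Real.sqrt (Real.log n) := Real.le_sqrt_of_sq_le (by linarith)
  have hnR : (2 : ℝ) ≤ n := by exact_mod_cast hn
  have hn0 : (0 : ℝ) < n := by linarith
  have hsn : 0 < Real.sqrt n := Real.sqrt_pos.2 hn0
  have hsq : Real.sqrt n * Real.sqrt n = n := Real.mul_self_sqrt hn0.le
  have hX : Real.sqrt (Real.log n / n) = Real.sqrt (Real.log n) / Real.sqrt n :=
    Real.sqrt_div (by linarith) _
  rw [hX]
  rcases Nat.lt_or_ge n 4 with hn4 | hn4
  · -- trivial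
    have h1 : ((univ.filter fun v : ι → Bool => ∃ W, C₀.Mnl W ∧
        2 * finrank ℝ (C₀.Hom W) ≤ finrank ℝ W ∧ SOrth v W).card : ℝ) ≤ 2 ^ n := by
      have h2 := card_le_univ (univ.filter fun v : ι → Bool => ∃ W, C₀.Mnl W ∧
        2 * finrank ℝ (C₀.Hom W) ≤ finrank ℝ W ∧ SOrth v W)
      rw [Fintype.card_fun, Fintype.card_bool] at h2
      exact_mod_cast h2
    have h3 : Real.sqrt n ≤ 2 := by
      rw [Real.sqrt_le_left (by norm_num)]
      have : (n : ℝ) < 4 := by exact_mod_cast hn4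
      linarith
    have h4 : 1 / 4 ≤ Real.sqrt (Real.log n) / Real.sqrt n := by
      rw [le_div_iff₀ hsn]
      linarith
    have h5 : (0 : ℝ) ≤ R₂.card / n := by positivity
    have h6 : (1 : ℝ) ≤ (C₄ + 220) * (Real.sqrt (Real.log n) / Real.sqrt n + R₂.card / n) := by
      nlinarith
    calc _ ≤ (2 : ℝ) ^ n := h1
      _ = 1 * 2 ^ n := (one_mul _).symm
      _ ≤ _ := by gcongr
  obtain ⟨R, hR1, hR2, hR3⟩ := Coc.exists_reps_in (C := C₀) ⊤
  rw [finrank_top, finrank_euclideanSpace, ← hndef] at hR3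
  let R₁ := R.filter fun U : Submodule ℝ (EuclideanSpace ℝ ι) =>
    3 ≤ finrank ℝ U ∧ 2 * finrank ℝ (C₀.Hom U) ≤ finrank ℝ U ∧ 2 * finrank ℝ U ≤ n
  let R₀ := R.filter fun U : Submodule ℝ (EuclideanSpace ℝ ι) => n < 2 * finrank ℝ U
  have hsub : (univ.filter fun v : ι → Bool => ∃ W, C₀.Mnl W ∧
        2 * finrank ℝ (C₀.Hom W) ≤ finrank ℝ W ∧ SOrth v W) ⊆
      (R₁.biUnion fun U => univ.filter fun v : ι → Bool => Deg C₀ U v) ∪
      ((R₀.biUnion fun U => univ.filter fun v : ι → Bool => Deg C₀ U v) ∪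
      (R₂.biUnion fun U => univ.filter fun v : ι → Bool => SOrth v U)) := by
    intro v hv
    obtain ⟨W, hW, hhN, hvW⟩ := (mem_filter.1 hv).2
    obtain ⟨U, hU, hUW⟩ := hR2 W hW le_top
    have hUm := (hR1 U hU).1
    have hfr : finrank ℝ W = finrank ℝ U := by
      obtain ⟨T, hT, hT0, rfl⟩ := hUW
      exact Coc.finrank_range_hom hUm hT hT0
    have hfh : finrank ℝ (C₀.Hom W) = finrank ℝ (C₀.Hom U) := Coc.finrank_hom_img hUm hUW
    have hpos := finrank_hom_pos hUm
    rw [mem_union, mem_union, mem_biUnion, mem_biUnion, mem_biUnion]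
    rw [hfr, hfh] at hhN
    by_cases h1 : n < 2 * finrank ℝ U
    · right; left
      exact ⟨U, mem_filter.2 ⟨hU, h1⟩, mem_filter.2 ⟨mem_univ _, W, hUW, hvW⟩⟩
    by_cases h2 : finrank ℝ U = 2
    · right; right
      obtain ⟨U', hU', hv'⟩ := hR₂' W hW (by rw [hfr, h2]) (by rw [hfh]; omega) v hvW
      exact ⟨U', hU', mem_filter.2 ⟨mem_univ _, hv'⟩⟩
    · left
      exact ⟨U, mem_filter.2 ⟨hU, by omega, hhN, by omega⟩, mem_filter.2 ⟨mem_univ _, W, hUW, hvW⟩⟩
  have hcard := (card_le_card hsub).trans ((card_union_le _ _).trans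
    (add_le_add card_biUnion_le ((card_union_le _ _).trans
      (add_le_add card_biUnion_le card_biUnion_le))))
  have hcardR : ((univ.filter fun v : ι → Bool => ∃ W, C₀.Mnl W ∧
        2 * finrank ℝ (C₀.Hom W) ≤ finrank ℝ W ∧ SOrth v W).card : ℝ)
      ≤ ∑ U ∈ R₁, ((univ.filter fun v : ι → Bool => Deg C₀ U v).card : ℝ)
      + (∑ U ∈ R₀, ((univ.filter fun v : ι → Bool => Deg C₀ U v).card : ℝ)
      + ∑ U ∈ R₂, ((univ.filter fun v : ι → Bool => SOrth v U).card : ℝ)) := by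
    exact_mod_cast hcard
  -- the three sums
  have hs1 : ∑ U ∈ R₁, ((univ.filter fun v : ι → Bool => Deg C₀ U v).card : ℝ)
      ≤ (C₄ + 202) * (Real.sqrt (Real.log n) / Real.sqrt n) * 2 ^ n := by
    have e0 : (0 : ℝ) < n * Real.sqrt n := by positivity
    refine le_of_mul_le_mul_right ?_ e0
    rw [sum_mul]
    calc ∑ U ∈ R₁, ((univ.filter fun v : ι → Bool => Deg C₀ U v).card : ℝ) * (n * Real.sqrt n)
        ≤ ∑ U ∈ R₁, (C₄ + 202) * Real.sqrt (Real.log n) * 2 ^ n * (finrank ℝ U : ℝ) := by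
          refine sum_le_sum fun U hU => ?_
          obtain ⟨hUR, h3, hh, hN⟩ := mem_filter.1 hU
          refine (half_small C₀ (hR1 U hUR).1 hn h3 hh hN).trans (le_of_eq ?_)
          rw [← hndef]
          ring
      _ = (C₄ + 202) * Real.sqrt (Real.log n) * 2 ^ n * ((∑ U ∈ R₁, finrank ℝ U : ℕ) : ℝ) := by
          rw [← mul_sum]
          push_cast
          rfl
      _ ≤ (C₄ + 202) * Real.sqrt (Real.log n) * 2 ^ n * (n : ℝ) := by
          have h6 : ∑ U ∈ R₁, finrank ℝ U ≤ n :=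
            (sum_le_sum_of_subset (filter_subset _ _)).trans hR3
          have h7 : ((∑ U ∈ R₁, finrank ℝ U : ℕ) : ℝ) ≤ n := by exact_mod_cast h6
          gcongr
      _ = _ := by
          field_simp
  have hs0 : ∑ U ∈ R₀, ((univ.filter fun v : ι → Bool => Deg C₀ U v).card : ℝ)
      ≤ 2 * (Real.sqrt (Real.log n) / Real.sqrt n) * 2 ^ n := by
    have hR₀ : R₀.card ≤ 1 := by
      by_contra h
      push Not at h
      obtain ⟨U, hU, W, hW, hne⟩ := one_lt_card.1 h
      rw [mem_filter] at hU hW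
      have h1 : finrank ℝ U + finrank ℝ W ≤ ∑ V ∈ R, finrank ℝ V := by
        have h2 := sum_pair (f := fun V : Submodule ℝ (EuclideanSpace ℝ ι) => finrank ℝ V) hne
        refine le_trans (le_of_eq h2.symm) (sum_le_sum_of_subset ?_)
        intro V hV
        rcases mem_insert.1 hV with h2 | h2
        · rw [h2]; exact hU.1
        · rw [mem_singleton.1 h2]; exact hW.1
      omega
    refine le_of_mul_le_mul_right ?_ hsn
    rw [sum_mul]
    calc ∑ U ∈ R₀, ((univ.filter fun v : ι → Bool => Deg C₀ U v).card : ℝ) * Real.sqrt n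
        ≤ ∑ _U ∈ R₀, (2 : ℝ) ^ n := by
          refine sum_le_sum fun U hU => ?_
          obtain ⟨hUR, h3⟩ := mem_filter.1 hU
          exact half_large C₀ (hR1 U hUR).1 h3
      _ = R₀.card * 2 ^ n := by rw [sum_const, nsmul_eq_mul]
      _ ≤ 1 * 2 ^ n := by
          gcongr
          exact_mod_cast hR₀
      _ ≤ (2 * Real.sqrt (Real.log n)) * 2 ^ n := by
          gcongr
          linarith
      _ = _ := by
          field_simp
  have hs2 : ∑ U ∈ R₂, ((univ.filter fun v : ι → Bool => SOrth v U).card : ℝ)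
      ≤ 14 * (R₂.card / n) * 2 ^ n := by
    calc ∑ U ∈ R₂, ((univ.filter fun v : ι → Bool => SOrth v U).card : ℝ)
        ≤ ∑ _U ∈ R₂, (14 / n * 2 ^ n : ℝ) :=
          sum_le_sum fun U hU => half_two C₀ (hR₂ U hU).1 hn4 (hR₂ U hU).2
      _ = _ := by
          rw [sum_const, nsmul_eq_mul]
          ring
  refine hcardR.trans ((add_le_add hs1 (add_le_add hs0 hs2)).trans ?_)
  have e1 : (0 : ℝ) ≤ Real.sqrt (Real.log n) / Real.sqrt n := by positivity
  have e2 : (0 : ℝ) ≤ (R₂.card : ℝ) / n := by positivity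
  have e3 : (C₄ + 202) * (Real.sqrt (Real.log n) / Real.sqrt n)
      + (2 * (Real.sqrt (Real.log n) / Real.sqrt n) + 14 * (R₂.card / n))
      ≤ (C₄ + 220) * (Real.sqrt (Real.log n) / Real.sqrt n + R₂.card / n) := by nlinarith
  calc _ = ((C₄ + 202) * (Real.sqrt (Real.log n) / Real.sqrt n)
      + (2 * (Real.sqrt (Real.log n) / Real.sqrt n) + 14 * (R₂.card / n))) * 2 ^ n := by ring
    _ ≤ _ := by gcongr

end Pool.MP43e44c
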