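import Pool.Agent.H.MP_43e44c_ag.PS.Ext
import Pool.Agent.H.MP_43e44c_ag.SB.Uni
import Pool.Agent.H.MP_43e44c_ag.Lat

/-!
Half systems with a relation and sign vectors orthogonal to invariant subspaces.
-/

set_option autoImplicit false

open Finset Module

namespace Pool.MP43e44c

namespace PairData

variable {G X P : Type*} [Group G] [MulAction G X] [Fintype X] [MulAction G P]
  [Fintype P] (D : PairData G X P)

/-- Sums of even functions. -/
theorem sum_even {F : X → ℤ} (hF : ∀ x, F (D.c x) = F x) : ∑ x, F x = 2 * ∑ i, F (D.r i) := by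
  classical
  rw [← sum_fiberwise (s := univ) (g := D.π) (f := F), mul_sum]
  refine sum_congr rfl fun i _ => ?_
  have h3 : (univ.filter fun y => D.π y = i) = {D.r i, D.c (D.r i)} := by
    ext y
    simp only [mem_filter, mem_univ, true_and, mem_insert, mem_singleton]
    rw [← D.hfib, D.hr, eq_comm]
  rw [h3, sum_pair (Ne.symm (D.hne _)), hF]
  ring

include D in
theorem card_X : Fintype.card X = 2 * Fintype.card P := by
  have h := D.sum_even (F := fun _ => 1) (fun _ => rfl)
  simp only [sum_const, card_univ, nsmul_eq_mul, mul_one] at h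
  exact_mod_cast h

open Classical in
/-- The sign vector of a half system. -/
noncomputable def vec (Φ : Finset X) : P → Bool := fun i => decide (D.r i ∈ Φ)

omit [Fintype X] [Fintype P] in
theorem vec_inj {Φ Φ' : Finset X} (hΦ : ∀ x, x ∈ Φ ↔ D.c x ∉ Φ) (hΦ' : ∀ x, x ∈ Φ' ↔ D.c x ∉ Φ')
    (h : D.vec Φ = D.vec Φ') : Φ = Φ' := by
  ext x
  have h1 : ∀ i, D.r i ∈ Φ ↔ D.r i ∈ Φ' := by
    intro i
    have h2 := congrFun h i
    unfold vec at h2
    simpa using h2
  rcases D.r_or x with h2 | h2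
  · rw [h2]; exact h1 _
  · have h3 := h1 (D.π x)
    have h4 := hΦ (D.r (D.π x))
    have h5 := hΦ' (D.r (D.π x))
    rw [h2]
    tauto

theorem sv_vec {Φ : Finset X} (i : P) : sv (D.vec Φ) i = (sg Φ (D.r i) : ℝ) := by
  classical
  show (if D.vec Φ i then (1 : ℝ) else -1) = _
  unfold vec
  by_cases h : D.r i ∈ Φ
  · rw [sg_mem h, if_pos (by simpa using h)]; norm_num
  · rw [sg_notMem h, if_neg (by simpa using h)]; norm_num

/-- A degenerate half system gives an invariant subspace. -/
theorem exists_inv_of_lat {Φ : Finset X} (hΦ : ∀ x, x ∈ Φ ↔ D.c x ∉ Φ) {f : X → ℤ}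
    (hf : f ∈ lat G D.c Φ) (hf0 : f ≠ 0) :
    ∃ W : Submodule ℝ (EuclideanSpace ℝ P), D.coc.Inv W ∧ W ≠ ⊥ ∧ SOrth (D.vec Φ) W := by
  obtain ⟨hf1, hf2⟩ := hf
  let y : EuclideanSpace ℝ P := WithLp.toLp 2 fun i => (f (D.r i) : ℝ)
  have hy : ∀ i, y i = (f (D.r i) : ℝ) := fun _ => rfl
  have hyext : ∀ x, D.ext (fun i => y i) x = (f x : ℝ) := by
    intro x
    exact (D.eq_ext (F := fun x => (f x : ℝ)) (fun x => by
      show (f (D.c x) : ℝ) = _
      rw [hf1, Int.cast_neg]) x).symm
  obtain ⟨x₁, hx₁⟩ : ∃ x₁, f x₁ ≠ 0 := by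
    by_contra hcon
    push Not at hcon
    exact hf0 (funext hcon)
  refine ⟨Submodule.span ℝ (Set.range fun g : G => D.coc.act g y), ?_, ?_, ?_⟩
  · intro h x hx
    have h1 : Submodule.span ℝ (Set.range fun g : G => D.coc.act g y) ≤
        (Submodule.span ℝ (Set.range fun g : G => D.coc.act g y)).comap (D.coc.act h) := by
      rw [Submodule.span_le]
      rintro _ ⟨h', rfl⟩
      refine Submodule.subset_span ⟨h * h', ?_⟩
      exact D.coc.act_mul h h' y
    exact h1 hx
  · intro h
    have h1 : y ∈ Submodule.span ℝ (Set.range fun g : G => D.coc.act g y) :=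
      Submodule.subset_span ⟨1, D.coc.act_one y⟩
    rw [h] at h1
    have h2 : y = 0 := (Submodule.mem_bot ℝ).1 h1
    apply hx₁
    have h3 := hyext x₁
    rw [h2] at h3
    have h4 : D.ext (fun i => (0 : EuclideanSpace ℝ P) i) x₁ = 0 := by
      unfold ext
      split_ifs <;> simp
    rw [h4] at h3
    exact_mod_cast h3.symm
  · intro x hx
    have key : ∀ g : G, inner ℝ (sv (D.vec Φ)) (D.coc.act g y) = (0 : ℝ) := by
      intro g
      have h1 := hf2 g
      have h2 := D.sum_even (F := fun x => f (g⁻¹ • x) * sg Φ x) (fun x => by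
        show f (g⁻¹ • D.c x) * sg Φ (D.c x) = _
        rw [D.hcg, hf1, sg_conj hΦ, neg_mul_neg])
      have h3 : ∑ x, f (g⁻¹ • x) * sg Φ x = 0 := by
        rw [← h1]
        refine Fintype.sum_equiv (MulAction.toPerm g⁻¹) _ _ fun x => ?_
        rw [MulAction.toPerm_apply, smul_inv_smul]
      rw [h3] at h2
      have h4 : ∑ i, f (g⁻¹ • D.r i) * sg Φ (D.r i) = 0 := by omega
      have h5 : ∑ i, (f (g⁻¹ • D.r i) : ℝ) * (sg Φ (D.r i) : ℝ) = 0 := by exact_mod_cast h4
      rw [PiLp.inner_apply, ← h5]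
      refine sum_congr rfl fun i _ => ?_
      have h6 : D.coc.act g y i = (f (g⁻¹ • D.r i) : ℝ) := by
        have h7 := D.ext_act g y (D.r i)
        rw [D.ext_r, hyext] at h7
        exact h7
      rw [h6, D.sv_vec]
      simp only [RCLike.inner_apply, conj_trivial]
    have h1 : Submodule.span ℝ (Set.range fun g : G => D.coc.act g y) ≤
        LinearMap.ker (innerₛₗ ℝ (sv (D.vec Φ))) := by
      rw [Submodule.span_le]
      rintro _ ⟨g, rfl⟩
      exact key g
    exact h1 hx

end PairData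

end Pool.MP43e44c
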