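import Pool.Agent.H.MP_43e44c_ag.PS.GrpA
import Pool.Agent.H.MP_43e44c_ag.SB.SubF

/-!
CM fields which are not Galois and whose proper CM subfields have small degree.
-/

set_option autoImplicit false

open NumberField Finset Module

namespace Pool.MP43e44c

variable {K : Type*} [Field K] [NumberField K]

/-- The Galois group acts faithfully on the embeddings. -/
theorem faithful_GG (g : GG K) (hg : ∀ x : K →+* ℂ, g • x = x) : g = 1 := by
  let J : Subgroup (GG K) :=
    { carrier := {h | ∀ x : K →+* ℂ, h • x = x}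
      one_mem' := fun x => one_smul _ x
      mul_mem' := by
        intro a b ha hb x
        rw [mul_smul, hb, ha]
      inv_mem' := by
        intro a ha x
        rw [inv_smul_eq_iff, ha] }
  let F : IntermediateField ℚ (GC K) := IntermediateField.fixedField J
  have hle : GC K ≤ F.map (GC K).val := by
    rw [normalClosure_le_iff]
    rintro f _ ⟨x, rfl⟩
    refine ⟨lft (f : K →+* ℂ) x, ?_, rfl⟩
    change lft (f : K →+* ℂ) x ∈ IntermediateField.fixedField J
    rw [IntermediateField.mem_fixedField_iff]
    intro h hh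
    have h1 := lft_smul h (f : K →+* ℂ) x
    rw [(show h • (f : K →+* ℂ) = f from hh _)] at h1
    exact h1.symm
  have hF : F = ⊤ := by
    rw [eq_top_iff]
    intro y _
    obtain ⟨y', hy', h1⟩ := hle y.2
    have h2 : y' = y := Subtype.ext h1
    rw [← h2]
    exact hy'
  have hJ : J = ⊥ := by
    have h1 := IntermediateField.fixingSubgroup_fixedField J
    rw [show IntermediateField.fixedField J = ⊤ from hF, IntermediateField.fixingSubgroup_top] at h1
    exact h1.symm
  have h1 : g ∈ J := hg
  rw [hJ] at h1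
  exact Subgroup.mem_bot.1 h1

/-- Two embeddings with different stabilisers. -/
theorem exists_stabilizer_ne (hG : ¬ IsGalois ℚ K) (x₀ : K →+* ℂ) : ∃ x₁ : K →+* ℂ,
    MulAction.stabilizer (GG K) x₁ ≠ MulAction.stabilizer (GG K) x₀ := by
  by_contra hcon
  push Not at hcon
  apply hG
  have h1 : MulAction.stabilizer (GG K) x₀ = ⊥ := by
    rw [eq_bot_iff]
    intro g hg
    rw [Subgroup.mem_bot]
    apply faithful_GG
    intro x
    have h2 : g ∈ MulAction.stabilizer (GG K) x := by rw [hcon x]; exact hg
    exact h2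
  have h2 := Subgroup.card_mul_index (MulAction.stabilizer (GG K) x₀)
  rw [MulAction.index_stabilizer_of_transitive, h1, Subgroup.card_bot, one_mul,
    Nat.card_eq_fintype_card, NumberField.Embeddings.card K ℂ,
    IsGalois.card_aut_eq_finrank ℚ (GC K)] at h2
  have hinj : Function.Injective (lft x₀) := (lft x₀).injective
  have hsurj : Function.Surjective (lft x₀) :=
    (LinearMap.injective_iff_surjective_of_finrank_eq_finrank (f := (lft x₀).toLinearMap) h2).1 hinj
  exact IsGalois.of_algEquiv (AlgEquiv.ofBijective (lft x₀) ⟨hinj, hsurj⟩).symm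

variable [IsCMField K]

/-- Intermediate subgroups and proper CM subfields. -/
theorem index_le_of_subfields {d : ℕ} (hd : ∀ F : IntermediateField ℚ K, F ≠ ⊤ →
    (¬ ∀ x ∈ F, x ∈ maximalRealSubfield K) → finrank ℚ F ≤ d) (x₀ : K →+* ℂ)
    (J : Subgroup (GG K)) (hJ : MulAction.stabilizer (GG K) x₀ ≤ J)
    (hJ' : J ≠ MulAction.stabilizer (GG K) x₀) (hz : conjG K ∉ J) : J.index ≤ d := by
  rw [← subf_finrank x₀ hJ]
  apply hd
  · intro h
    have h1 := subf_finrank x₀ hJ
    rw [h, IntermediateField.finrank_top'] at h1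
    have h2 : (MulAction.stabilizer (GG K) x₀).index = finrank ℚ K := by
      rw [MulAction.index_stabilizer_of_transitive, Nat.card_eq_fintype_card,
        NumberField.Embeddings.card K ℂ]
    rw [← h2] at h1
    apply hJ'
    have h3 := Subgroup.card_mul_index J
    have h4 := Subgroup.card_mul_index (MulAction.stabilizer (GG K) x₀)
    rw [h1, ← h3] at h4
    have h5 : J.index ≠ 0 := Subgroup.index_ne_zero_of_finite
    have h6 := Nat.eq_of_mul_eq_mul_right (Nat.pos_of_ne_zero h5) h4
    exact (Subgroup.eq_of_le_of_card_ge hJ h6.ge).symm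
  · intro h4
    apply hz
    rw [← IntermediateField.fixingSubgroup_fixedField J, IntermediateField.mem_fixingSubgroup_iff]
    intro z hz
    rw [← subf_map x₀ hJ] at hz
    obtain ⟨y, hy, rfl⟩ := hz
    have h5 := conj_real x₀ (h4 y hy)
    apply Subtype.ext
    change ((conjG K (lft x₀ y) : GC K) : ℂ) = ((lft x₀ y : GC K) : ℂ)
    rw [conjG_apply, coe_lft]
    rwa [ComplexEmbedding.conjugate_coe_eq] at h5

/-- The count for CM fields which are not Galois. -/
theorem nonGalois_count.{u} {K : Type u} [Field K] [NumberField K] [IsCMField K] {n : ℕ}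
    (hK : finrank ℚ K = 2 * n) (hG : ¬ IsGalois ℚ K) {d : ℕ} (hd0 : 0 < d)
    (hd : ∀ F : IntermediateField ℚ K, F ≠ ⊤ →
      (¬ ∀ x ∈ F, x ∈ maximalRealSubfield K) → finrank ℚ F ≤ d) :
    ({Φ : Finset (K →+* ℂ) | IsCMType Φ ∧ ¬ HodgeRingGeneratedByDivisors Φ}.ncard : ℝ)
      ≤ (2 + 2 * C₆ + 3 * C₅.{0, u} + C₃) * ((d : ℝ) * Real.sqrt d *
        Real.sqrt (Real.log n / n)) * 2 ^ n := by
  classical
  let cc : (K →+* ℂ) → (K →+* ℂ) := ComplexEmbedding.conjugate
  let P := Quotient (pairSetoid cc conj_conj)
  let actP : MulAction (GG K) P := pairAction cc conj_conj hcgK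
  let D : PairData (GG K) (K →+* ℂ) P :=
    { c := cc
      hcc := conj_conj
      hcg := hcgK
      hne := conj_ne
      π := Quotient.mk _
      hπ := fun _ _ => rfl
      hfib := fun _ _ => Quotient.eq
      r := Quotient.out
      hr := Quotient.out_eq }
  have : Finite P := Finite.of_surjective D.π Quotient.exists_rep
  let fP : Fintype P := Fintype.ofFinite P
  have hcardP : Fintype.card P = n := by
    have h1 := D.card_X
    rw [NumberField.Embeddings.card K ℂ, hK] at h1
    omega
  obtain ⟨x₀⟩ : Nonempty (K →+* ℂ) := inferInstance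
  obtain ⟨x₁, hne⟩ := exists_stabilizer_ne hG x₀
  have hn : 2 ≤ n := by
    by_contra hcon
    have h1 : n ≠ 0 := by
      rintro rfl
      exact absurd hK finrank_pos.ne'
    have h2 : n = 1 := by omega
    subst h2
    apply hG
    have : Algebra.IsQuadraticExtension ℚ K := { finrank_eq_two' := hK }
    infer_instance
  have hmain := PairData.grpA_count (D := D) faithful_GG (z := conjG K)
    (fun x => (conjG_smul x).symm) hne hd0 (fun J h1 h2 h3 => index_le_of_subfields hd x₀ J h1 h2 h3)
    (by rw [hcardP]; exact hn)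
  rw [hcardP] at hmain
  refine le_trans ?_ hmain
  exact_mod_cast Set.ncard_le_ncard bad_subset_lat (Set.toFinite _)

end Pool.MP43e44c
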