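import Pool.Agent.H.MP_43e44c_ag.PS.AsymC
import Pool.Agent.H.MP_43e44c_ag.Lat

/-!
Half systems with a relation, for groups containing a cyclic regular subgroup.
-/

set_option autoImplicit false

open Finset Module

namespace Pool.MP43e44c

open Cy

/-- The constant. -/
noncomputable def C₆ : ℝ := (exists_sum_bound 2).choose

theorem C₆_nonneg : 0 ≤ C₆ := (exists_sum_bound 2).choose_spec.1

open Classical in
theorem card_half_le {C : Type*} [CommGroup C] [Fintype C] [DecidableEq C] [IsCyclic C] {c : C}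
    (hc2 : c * c = 1) (hc1 : c ≠ 1) {n : ℕ} (hn : Fintype.card C = 2 * n) :
    (univ.filter fun A : Finset C => IsHalf c A).card ≤ 2 ^ n := by
  have h1 : IsCyclic (C ⧸ (⊥ : Subgroup C)) := inferInstance
  have h2 : c ∉ (⊥ : Subgroup C) := fun h => hc1 (Subgroup.mem_bot.1 h)
  obtain ⟨t, h, hm, hh, hpow, hrep, htc⟩ := exists_gen hc2 ⊥ h2
  have hb := param_bijective hc2 ⊥ t h hm hpow hrep htc
  have h3 : n = h := by
    rw [Subgroup.index_bot, Nat.card_eq_fintype_card, hn] at hm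
    omega
  have h4 : (univ.filter fun A : Finset C => IsHalf c A).card
      ≤ (univ : Finset (Fin h → Finset (⊥ : Subgroup C))).card := by
    refine card_le_card_of_injOn (fun A => fam (⊥ : Subgroup C) t h A) (fun _ _ => mem_univ _) ?_
    intro A hA B hB hAB
    exact fam_injOn _ t h hb (mem_filter.1 hA).2 (mem_filter.1 hB).2 hAB
  refine h4.trans (le_of_eq ?_)
  rw [card_univ, Fintype.card_fun, Fintype.card_finset, Fintype.card_fin, h3]
  simp

theorem cyc_count_grp {C : Type*} [CommGroup C] [Fintype C] [DecidableEq C] [IsCyclic C] {c : C}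
    (hc2 : c * c = 1) (hc1 : c ≠ 1) {n : ℕ} (hn : Fintype.card C = 2 * n) :
    (({A : Finset C | IsHalf c A ∧ ∃ χ : C →* ℂˣ, χ c = -1 ∧
        ∑ g, (sgn A g : ℂ) * (χ g : ℂ) = 0}).ncard : ℝ) ≤ C₆ / √n * 2 ^ n := by
  classical
  have hn0 : 0 < n := by
    have := Fintype.card_pos (α := C)
    omega
  let S : Finset (Subgroup C) := (Set.toFinite {N : Subgroup C | c ∉ N}).toFinset
  have hS : ∀ N, N ∈ S ↔ c ∉ N := fun N => by simp [S]
  let Bd : Subgroup C → Finset (Finset C) := fun N => univ.filter fun A : Finset C => IsHalf c A ∧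
        ∃ χ : C →* ℂˣ, χ.ker = N ∧ ∑ g, (sgn A g : ℂ) * (χ g : ℂ) = 0
  have hsub : {A : Finset C | IsHalf c A ∧ ∃ χ : C →* ℂˣ, χ c = -1 ∧
        ∑ g, (sgn A g : ℂ) * (χ g : ℂ) = 0} ⊆ ((S.biUnion Bd : Finset (Finset C)) : Set (Finset C)) := by
    rintro A ⟨hA, χ, hχ, h0⟩
    rw [mem_coe, mem_biUnion]
    refine ⟨χ.ker, (hS _).2 ?_, mem_filter.2 ⟨mem_univ _, hA, χ, rfl, h0⟩⟩
    intro h
    rw [MonoidHom.mem_ker, hχ] at h
    have h1 := congrArg (fun u : ℂˣ => (u : ℂ)) h
    simp only [Units.val_neg, Units.val_one] at h1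
    norm_num at h1
  have h1 : (({A : Finset C | IsHalf c A ∧ ∃ χ : C →* ℂˣ, χ c = -1 ∧
        ∑ g, (sgn A g : ℂ) * (χ g : ℂ) = 0}).ncard : ℝ) ≤ ∑ N ∈ S, ((Bd N).card : ℝ) := by
    have h2 := (Set.ncard_le_ncard hsub (Set.toFinite _))
    rw [Set.ncard_coe_finset] at h2
    have h3 := h2.trans card_biUnion_le
    exact_mod_cast h3
  refine h1.trans ?_
  have hhalf : ((univ.filter fun A : Finset C => IsHalf c A).card : ℝ) ≤ 2 ^ n := by
    exact_mod_cast card_half_le hc2 hc1 hn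
  have h2 : ∀ N ∈ S, ((Bd N).card : ℝ) ≤ maxProb (Nat.card N) ^ Nat.totient N.index * 2 ^ n := by
    intro N hN
    have h3 := card_bad_le hc2 N ((hS N).1 hN)
    refine h3.trans ?_
    have := maxProb_nonneg (Nat.card N)
    gcongr
  refine (sum_le_sum h2).trans ?_
  rw [← sum_mul]
  have hpos : (0 : ℝ) < 2 ^ n := by positivity
  refine mul_le_mul_of_nonneg_right ?_ hpos.le
  obtain ⟨g, hg⟩ := IsCyclic.exists_generator (α := C)
  have hcl : Subgroup.closure (Set.range fun _ : Fin 1 => g) = ⊤ := by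
    rw [Set.range_const, ← Subgroup.zpowers_eq_closure, eq_top_iff]
    exact fun x _ => hg x
  have hn0R : (0 : ℝ) < n := by exact_mod_cast hn0
  have hmain := sum_fiber_le S (fun N => N.index) 1 (fun m => by
      rcases Nat.eq_zero_or_pos m with rfl | hm
      · rw [card_eq_zero.2]
        · exact Nat.zero_le _
        · rw [filter_eq_empty_iff]
          intro N _ h
          exact Subgroup.index_ne_zero_of_finite h
      · exact card_quot_le _ hcl hm _ (fun N hN => ⟨inferInstance, (mem_filter.1 hN).2⟩))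
    (fun N => maxProb (Nat.card N) ^ Nat.totient N.index)
    (fun m => (1 / √((2 * n : ℕ) : ℝ)) * (√2 * m * (1 / √2) ^ Nat.totient m))
    (fun m => by positivity) (fun N _ => by
      refine term_le_one ?_ (Nat.pos_of_ne_zero Subgroup.index_ne_zero_of_finite) Nat.card_pos
        (Nat.totient_pos.2 (Nat.pos_of_ne_zero Subgroup.index_ne_zero_of_finite))
      have h3 := Subgroup.card_mul_index N
      rw [Nat.card_eq_fintype_card (α := C), hn] at h3
      rw [← h3, mul_comm])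
  refine hmain.trans ?_
  have hsq : √((2 * n : ℕ) : ℝ) = √2 * √n := by
    push_cast
    rw [Real.sqrt_mul (by norm_num)]
  have hs2 : 0 < √(2 : ℝ) := by positivity
  have hsn : 0 < √(n : ℝ) := Real.sqrt_pos.2 hn0R
  calc ∑ m ∈ S.image (fun N : Subgroup C => N.index), ((m : ℕ) : ℝ) ^ 1 *
        ((1 / √((2 * n : ℕ) : ℝ)) * (√2 * ((m : ℕ) : ℝ) * (1 / √2) ^ Nat.totient m))
      = (∑ m ∈ S.image (fun N : Subgroup C => N.index),
          ((m : ℕ) : ℝ) ^ 2 * (1 / √2) ^ Nat.totient m) / √n := by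
        rw [sum_div]
        refine sum_congr rfl fun m _ => ?_
        rw [hsq]
        field_simp
    _ ≤ C₆ / √n := by
        gcongr
        exact (exists_sum_bound 2).choose_spec.2 _

/-- Half systems with a relation, for a group containing a cyclic group acting transitively. -/
theorem cyc_count {G X : Type*} [Group G] [MulAction G X] [Fintype X] [Finite G]
    (hfaith : ∀ g : G, (∀ x : X, g • x = x) → g = 1) {c : X → X} (hcc : ∀ x, c (c x) = x)
    (hcg : ∀ (g : G) x, g • c x = c (g • x)) (hne : ∀ x, c x ≠ x) {x₀ : X} {t : G}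
    (ht : ∀ x : X, ∃ k : ℕ, t ^ k • x₀ = x) {n : ℕ} (hn : Fintype.card X = 2 * n) :
    ({Φ : Finset X | (∀ x, x ∈ Φ ↔ c x ∉ Φ) ∧ ∃ f ∈ lat G c Φ, f ≠ 0}.ncard : ℝ)
      ≤ C₆ / √n * 2 ^ n := by
  classical
  let C := Subgroup.zpowers t
  have hCcomm : ∀ a b : C, a * b = b * a := by
    rintro ⟨_, a, rfl⟩ ⟨_, b, rfl⟩
    apply Subtype.ext
    show t ^ a * t ^ b = t ^ b * t ^ a
    rw [← zpow_add, ← zpow_add, add_comm]
  let iC : CommGroup C := { (inferInstance : Group C) with mul_comm := hCcomm }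
  have hcyc : IsCyclic C := by
    refine ⟨⟨⟨t, Subgroup.mem_zpowers t⟩, ?_⟩⟩
    rintro ⟨_, a, rfl⟩
    exact ⟨a, Subtype.ext (by simp)⟩
  let fC : Fintype C := Fintype.ofFinite C
  -- regular action
  have hcomm : ∀ a b : C, (a : G) * b = b * a := by
    intro a b
    exact congrArg Subtype.val (mul_comm a b)
  have hsurj : ∀ x : X, ∃ a : C, (a : G) • x₀ = x := by
    intro x
    obtain ⟨k, hk⟩ := ht x
    exact ⟨⟨t ^ k, k, by simp⟩, hk⟩
  have hinj : ∀ a b : C, (a : G) • x₀ = (b : G) • x₀ → a = b := by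
    intro a b hab
    apply Subtype.ext
    have h1 : (b : G)⁻¹ * a = 1 := by
      apply hfaith
      intro x
      obtain ⟨d, rfl⟩ := hsurj x
      rw [mul_smul, inv_smul_eq_iff, ← mul_smul, ← mul_smul, hcomm a d, hcomm b d, mul_smul,
        mul_smul, hab]
    exact (inv_mul_eq_one.1 h1).symm
  let e : C ≃ X := Equiv.ofBijective (fun a : C => (a : G) • x₀)
    ⟨fun a b h => hinj a b h, fun x => hsurj x⟩
  have he : ∀ a : C, e a = (a : G) • x₀ := fun _ => rfl
  have hcardC : Fintype.card C = 2 * n := by rw [← hn]; exact Fintype.card_congr e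
  obtain ⟨z, hz⟩ := hsurj (c x₀)
  have hzx : ∀ a : C, (((a * z : C) : G)) • x₀ = c ((a : G) • x₀) := by
    intro a
    rw [Subgroup.coe_mul, mul_smul, hz, hcg]
  have hz1 : z ≠ 1 := by
    rintro rfl
    exact hne x₀ (by rw [← hz]; simp)
  have hz2 : z * z = 1 := by
    apply hinj
    rw [hzx, hz, hcc, Subgroup.coe_one, one_smul]
  have hmain := cyc_count_grp hz2 hz1 hcardC
  refine le_trans (Nat.cast_le.2 ?_) hmain
  refine Set.ncard_le_ncard_of_injOn (fun Φ => univ.filter fun a : C => (a : G) • x₀ ∈ Φ) ?_ ?_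
    (Set.toFinite _)
  · rintro Φ ⟨hΦ, f, ⟨hf1, hf2⟩, hf0⟩
    set A : Finset C := univ.filter fun a : C => (a : G) • x₀ ∈ Φ with hA
    have hmemA : ∀ a, a ∈ A ↔ (a : G) • x₀ ∈ Φ := fun a => by simp [hA]
    have hhalf : IsHalf z A := by
      intro a
      rw [hmemA, hmemA, hzx]
      exact hΦ _
    obtain ⟨x₁, hx₁⟩ : ∃ x₁, f x₁ ≠ 0 := by
      by_contra hcon
      push Not at hcon
      exact hf0 (funext hcon)
    obtain ⟨g₀, hg₀⟩ := hsurj x₁
    refine ⟨hhalf, exists_char hz2 hhalf (fun a => f ((a : G) • x₀)) (fun τ => ?_) (g₀ := g₀) ?_⟩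
    · have h1 := hf2 (τ : G)
      rw [← Equiv.sum_comp e] at h1
      rw [← h1]
      refine sum_congr rfl fun a _ => ?_
      rw [he, ← mul_smul, hcomm τ a]
      congr 1
      unfold sgn sg
      by_cases h2 : ((a : G) * τ) • x₀ ∈ Φ
      · rw [if_pos ((hmemA _).2 h2), if_pos h2]
      · rw [if_neg (fun h => h2 ((hmemA _).1 h)), if_neg h2]
    · show f ((g₀ : G) • x₀) ≠ f (((g₀ * z : C) : G) • x₀)
      rw [hzx, hf1, hg₀]
      intro h
      exact hx₁ (by omega)
  · intro Φ _ Φ' _ h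
    ext x
    obtain ⟨a, rfl⟩ := hsurj x
    have h1 : a ∈ (univ.filter fun a : C => (a : G) • x₀ ∈ Φ) ↔
        a ∈ (univ.filter fun a : C => (a : G) • x₀ ∈ Φ') := by
      rw [show (univ.filter fun a : C => (a : G) • x₀ ∈ Φ)
        = (univ.filter fun a : C => (a : G) • x₀ ∈ Φ') from h]
    simpa using h1

end Pool.MP43e44c
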