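import Pool.Agent.H.MP_43e44c_ag.MQ.HDef
import Pool.Agent.H.MP_43e44c_ag.MQ.Rat

/-!
Odd functions on a set with a free involution commuting with a group.
-/

set_option autoImplicit false

open Finset Module

namespace Pool.MP43e44c

/-- A group acting on a set with a free involution, and the set of pairs. -/
structure PairData (G X P : Type*) [Group G] [MulAction G X] [MulAction G P] where
  c : X → X
  hcc : ∀ x, c (c x) = x
  hcg : ∀ (g : G) x, g • c x = c (g • x)
  hne : ∀ x, c x ≠ x
  π : X → P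
  hπ : ∀ (g : G) x, π (g • x) = g • π x
  hfib : ∀ x y, π x = π y ↔ y = x ∨ y = c x
  r : P → X
  hr : ∀ i, π (r i) = i

namespace PairData

variable {G X P : Type*} [Group G] [MulAction G X] [MulAction G P] (D : PairData G X P)

theorem smul_r (g : G) (i : P) : g • D.r i = D.r (g • i) ∨ g • D.r i = D.c (D.r (g • i)) := by
  refine (D.hfib _ _).1 ?_
  rw [D.hr, D.hπ, D.hr]

theorem r_or (x : X) : x = D.r (D.π x) ∨ x = D.c (D.r (D.π x)) :=
  (D.hfib _ _).1 (D.hr _)

theorem π_c (x : X) : D.π (D.c x) = D.π x := ((D.hfib x (D.c x)).2 (Or.inr rfl)).symm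

/-- The cocycle of signs. -/
noncomputable def coc : Coc G P where
  ε g i := by
    classical
    exact if g • D.r i = D.r (g • i) then 1 else -1
  sq g i := by
    classical
    by_cases h : g • D.r i = D.r (g • i)
    · left; exact if_pos h
    · right; exact if_neg h
  mul g h i := by
    classical
    show (if (g * h) • D.r i = D.r ((g * h) • i) then (1 : ℝ) else -1)
      = (if g • D.r (h • i) = D.r (g • h • i) then (1 : ℝ) else -1)
        * (if h • D.r i = D.r (h • i) then (1 : ℝ) else -1)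
    rw [mul_smul, mul_smul]
    rcases D.smul_r h i with h1 | h1
    · rw [h1, if_pos (rfl : D.r (h • i) = D.r (h • i)), mul_one]
    · rw [h1, if_neg (D.hne (D.r (h • i))), D.hcg]
      rcases D.smul_r g (h • i) with h2 | h2
      · rw [h2, if_neg (D.hne _), if_pos rfl, one_mul]
      · rw [h2, D.hcc, if_pos rfl, if_neg (D.hne _)]
        norm_num

theorem sgn_of_eq {g : G} {i : P} (h : g • D.r i = D.r (g • i)) : D.coc.sgn g i = 1 := by
  classical
  have h1 : D.coc.ε g i = 1 := if_pos h
  unfold Coc.sgn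
  rw [if_pos h1]

theorem sgn_of_ne {g : G} {i : P} (h : g • D.r i = D.c (D.r (g • i))) : D.coc.sgn g i = -1 := by
  classical
  have h1 : D.coc.ε g i = -1 := if_neg (by rw [h]; exact D.hne _)
  unfold Coc.sgn
  rw [if_neg (by rw [h1]; norm_num)]

variable {R : Type*} [CommRing R]

open Classical in
/-- The odd function with given values on the half system. -/
noncomputable def ext (y : P → R) (x : X) : R := if x = D.r (D.π x) then y (D.π x) else - y (D.π x)

theorem ext_r (y : P → R) (i : P) : D.ext y (D.r i) = y i := by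
  unfold ext
  rw [D.hr, if_pos rfl]

theorem ext_c (y : P → R) (x : X) : D.ext y (D.c x) = - D.ext y x := by
  unfold ext
  rw [D.π_c]
  rcases D.r_or x with h | h
  · rw [if_pos h, if_neg]
    intro h1
    exact D.hne x (h1.trans h.symm)
  · have h1 : D.c x = D.r (D.π x) := by
      have h2 := congrArg D.c h
      rwa [D.hcc] at h2
    rw [if_pos h1, if_neg, neg_neg]
    intro h2
    exact D.hne x (h1.trans h2.symm)

/-- Odd functions are extensions. -/
theorem eq_ext {F : X → R} (hF : ∀ x, F (D.c x) = - F x) (x : X) :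
    F x = D.ext (fun i => F (D.r i)) x := by
  rcases D.r_or x with h | h
  · rw [h, D.ext_r, ← h]
  · conv_lhs => rw [h]
    conv_rhs => rw [h]
    rw [hF, D.ext_c, D.ext_r]

/-- Odd functions agreeing on the half system are equal. -/
theorem odd_ext {F F' : X → R} (hF : ∀ x, F (D.c x) = - F x) (hF' : ∀ x, F' (D.c x) = - F' x)
    (h : ∀ i, F (D.r i) = F' (D.r i)) (x : X) : F x = F' x := by
  rcases D.r_or x with h1 | h1
  · rw [h1]; exact h _
  · rw [h1, hF, hF', h]

theorem ext_smul_r (y : P → R) (g : G) (i : P) :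
    D.ext y (g • D.r i) = (D.coc.sgn g i : R) * y (g • i) := by
  rcases D.smul_r g i with h | h
  · rw [D.sgn_of_eq h, h, D.ext_r, Int.cast_one, one_mul]
  · rw [D.sgn_of_ne h, h, D.ext_c, D.ext_r]
    push_cast
    ring

theorem sgn_inv (g : G) (i : P) : D.coc.sgn g (g⁻¹ • i) = D.coc.sgn g⁻¹ i := by
  have h1 := D.coc.sgn_mul g g⁻¹ i
  rw [mul_inv_cancel, D.coc.sgn_one] at h1
  have h2 := D.coc.sgn_mul_self g⁻¹ i
  have h3 : D.coc.sgn g (g⁻¹ • i) * (D.coc.sgn g⁻¹ i * D.coc.sgn g⁻¹ i) = D.coc.sgn g⁻¹ i := by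
    rw [← mul_assoc, ← h1, one_mul]
  rwa [h2, mul_one] at h3

theorem ext_pact (g : G) (y : P → R) (x : X) :
    D.ext (D.coc.pact R g y) x = D.ext y (g⁻¹ • x) := by
  refine D.odd_ext (F := fun x => D.ext (D.coc.pact R g y) x) (F' := fun x => D.ext y (g⁻¹ • x))
    (fun x => D.ext_c _ x) (fun x => ?_) (fun i => ?_) x
  · show D.ext y (g⁻¹ • D.c x) = _
    rw [D.hcg, D.ext_c]
  · show D.ext _ (D.r i) = D.ext y (g⁻¹ • D.r i)
    rw [D.ext_r, D.ext_smul_r, Coc.pact_apply, D.sgn_inv]

theorem ext_act [Fintype P] (g : G) (y : EuclideanSpace ℝ P) (x : X) :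
    D.ext (R := ℝ) (fun i => D.coc.act g y i) x = D.ext (fun i => y i) (g⁻¹ • x) := by
  rw [← D.ext_pact]
  congr 1
  funext i
  rw [Coc.act_apply, Coc.pact_apply, Coc.sgn_cast]

theorem ext_add (y y' : P → R) (x : X) : D.ext (y + y') x = D.ext y x + D.ext y' x := by
  unfold ext
  split_ifs
  · rfl
  · rw [Pi.add_apply]; ring

theorem ext_smul (a : R) (y : P → R) (x : X) : D.ext (a • y) x = a * D.ext y x := by
  unfold ext
  split_ifs
  · rfl
  · rw [Pi.smul_apply, smul_eq_mul]; ring

/-- Odd functions invariant under a subgroup containing the stabiliser. -/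
noncomputable def EJ (R : Type*) [CommRing R] (x₀ : X) (J : Subgroup G) : Submodule R (P → R) where
  carrier := {y | ∀ g : G, ∀ j ∈ J, D.ext y (g • j • x₀) = D.ext y (g • x₀)}
  zero_mem' := by
    intro g j _
    have h1 : ∀ x, D.ext (0 : P → R) x = 0 := by
      intro x
      unfold ext
      split_ifs <;> simp
    rw [h1, h1]
  add_mem' := by
    intro y y' hy hy' g j hj
    rw [D.ext_add, D.ext_add, hy g j hj, hy' g j hj]
  smul_mem' := by
    intro a y hy g j hj
    rw [D.ext_smul, D.ext_smul, hy g j hj]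

theorem mem_EJ {x₀ : X} {J : Subgroup G} {y : P → R} :
    y ∈ D.EJ R x₀ J ↔ ∀ g : G, ∀ j ∈ J, D.ext y (g • j • x₀) = D.ext y (g • x₀) := Iff.rfl

theorem EJ_anti {x₀ : X} {J J' : Subgroup G} (h : J ≤ J') : D.EJ R x₀ J' ≤ D.EJ R x₀ J :=
  fun _ hy g j hj => hy g j (h hj)

theorem EJ_pinv (x₀ : X) (J : Subgroup G) : D.coc.PInv (D.EJ R x₀ J) := by
  intro k y hy g j hj
  rw [D.ext_pact, D.ext_pact, ← mul_smul, ← mul_smul k⁻¹ g]
  exact hy _ j hj

theorem finrank_EJ_le (K : Type*) [Field K] [MulAction.IsPretransitive G X] (x₀ : X)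
    (J : Subgroup G) [Finite (G ⧸ J)] : finrank K (D.EJ K x₀ J) ≤ J.index := by
  classical
  let fQ : Fintype (G ⧸ J) := Fintype.ofFinite _
  let L : D.EJ K x₀ J →ₗ[K] (G ⧸ J → K) :=
    { toFun := fun y q => D.ext (y : P → K) (Quotient.out q • x₀)
      map_add' := fun y y' => by
        funext q
        exact D.ext_add _ _ _
      map_smul' := fun a y => by
        funext q
        exact D.ext_smul _ _ _ }
  have hL : Function.Injective L := by
    intro y y' h
    apply Subtype.ext
    funext i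
    obtain ⟨g, hg⟩ := MulAction.exists_smul_eq G x₀ (D.r i)
    have h1 : ∀ y : D.EJ K x₀ J, D.ext (y : P → K) (g • x₀)
        = D.ext (y : P → K) (Quotient.out (g : G ⧸ J) • x₀) := by
      intro y
      have h2 : (Quotient.out (g : G ⧸ J))⁻¹ * g ∈ J := by
        have h3 : ((Quotient.out (g : G ⧸ J) : G) : G ⧸ J) = (g : G ⧸ J) := QuotientGroup.out_eq' _
        exact QuotientGroup.eq.1 h3
      have h4 := y.2 (Quotient.out (g : G ⧸ J)) _ h2
      rw [← mul_smul, mul_inv_cancel_left] at h4
      exact h4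
    have h5 := congrFun h (g : G ⧸ J)
    have h6 : D.ext (y : P → K) (g • x₀) = D.ext (y' : P → K) (g • x₀) := by
      rw [h1, h1]; exact h5
    rw [hg, D.ext_r, D.ext_r] at h6
    exact h6
  have h1 := LinearMap.finrank_le_finrank_of_injective hL
  rwa [Module.finrank_fintype_fun_eq_card, ← Nat.card_eq_fintype_card] at h1

/-- Real solutions come from rational ones. -/
theorem mem_rspan_EJ [Fintype P] (x₀ : X) (J : Subgroup G) {y : EuclideanSpace ℝ P}
    (hy : (fun i => y i) ∈ D.EJ ℝ x₀ J) : y ∈ rspan (D.EJ ℚ x₀ J) := by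
  have h1 := mem_span_rat (D.EJ ℚ x₀ J) (fun i => y i) (fun l g j hj => by
    have h2 : ∀ x, D.ext (fun i => l (y i)) x = l (D.ext (fun i => y i) x) := by
      intro x
      unfold ext
      split_ifs
      · rfl
      · rw [map_neg]
    rw [h2, h2, hy g j hj])
  have h3 : ∀ z ∈ Submodule.span ℝ (castR '' (D.EJ ℚ x₀ J : Set (P → ℚ))),
      (WithLp.toLp 2 z : EuclideanSpace ℝ P) ∈ rspan (D.EJ ℚ x₀ J) := by
    intro z hz
    induction hz using Submodule.span_induction with
    | mem z hz =>
      obtain ⟨s, hs, rfl⟩ := hz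
      exact Submodule.subset_span ⟨s, hs, rfl⟩
    | zero => exact Submodule.zero_mem _
    | add z z' _ _ hz hz' => exact Submodule.add_mem _ hz hz'
    | smul a z _ hz => exact Submodule.smul_mem _ a hz
  exact h3 _ h1

end PairData

end Pool.MP43e44c
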