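import Pool.Agent.H.MP_43e44c_ag.PS.Plane
import Pool.Agent.H.MP_43e44c_ag.PS.Cyc
import Pool.Agent.H.MP_43e44c_ag.PS.BadV
import Pool.Agent.H.MP_43e44c_ag.PS.Half
import Pool.Agent.H.MP_43e44c_ag.MQ.Kill
import Pool.Agent.H.MP_43e44c_ag.MQ.Red2

/-!
The number of half systems with a relation, for a group all of whose intermediate subgroups
avoiding the involution have small index.
-/

set_option autoImplicit false

open Finset Module

namespace Pool.MP43e44c

theorem exists_smul_of_finrank_one {M : Type*} [AddCommGroup M] [Module ℝ M]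
    (H : Submodule ℝ M) (h : finrank ℝ H = 1) {S T : M} (hS : S ∈ H) (hT : T ∈ H) (hS0 : S ≠ 0)
    (hT0 : T ≠ 0) : ∃ a : ℝ, a ≠ 0 ∧ T = a • S := by
  obtain ⟨a, ha⟩ := (finrank_eq_one_iff_of_nonzero' (⟨S, hS⟩ : H)
    (fun h => hS0 (congrArg Subtype.val h))).1 h ⟨T, hT⟩
  have ha' : a • S = T := congrArg Subtype.val ha
  refine ⟨a, ?_, ha'.symm⟩
  rintro rfl
  rw [zero_smul] at ha'
  exact hT0 ha'.symm

theorem img_eq {Γ ι : Type*} [Group Γ] [MulAction Γ ι] [Fintype ι] {C : Coc Γ ι}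
    {U W : Submodule ℝ (EuclideanSpace ℝ ι)} (hW0 : W ≠ ⊥)
    (h1 : finrank ℝ (C.Hom W) = 1) (h : C.Img W U) : U = W := by
  obtain ⟨T, hT, hT0, rfl⟩ := h
  obtain ⟨a, ha0, h2⟩ := exists_smul_of_finrank_one (C.Hom W) h1 (Coc.subtype_mem_hom W) hT
    (Coc.subtype_ne_zero hW0) hT0
  ext y
  constructor
  · rintro ⟨x, rfl⟩
    rw [h2]
    exact W.smul_mem _ x.2
  · intro hy
    refine ⟨a⁻¹ • ⟨y, hy⟩, ?_⟩
    rw [h2]
    show a • (a⁻¹ • y) = y
    rw [smul_smul, mul_inv_cancel₀ ha0, one_smul]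

/-- The constant for the types of small multiplicity. -/
noncomputable def C₅.{u, v} : ℝ := half_le.{u, v}.choose

theorem C₅_pos.{u, v} : 0 < C₅.{u, v} := half_le.{u, v}.choose_spec.1

namespace PairData

variable {G X P : Type*} [Group G] [Finite G] [MulAction G X] [Fintype X] [MulAction G P]
  [Fintype P] {D : PairData G X P} [MulAction.IsPretransitive G X]

/-- The real subspace of the functions invariant under a subgroup. -/
noncomputable def EV (D : PairData G X P) (x₀ : X) (J : Subgroup G) :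
    Submodule ℝ (EuclideanSpace ℝ P) :=
  (D.EJ ℝ x₀ J).comap (WithLp.linearEquiv 2 ℝ (P → ℝ)).toLinearMap

omit [Finite G] [Fintype X] [Fintype P] [MulAction.IsPretransitive G X] in
theorem mem_EV {x₀ : X} {J : Subgroup G} {u : EuclideanSpace ℝ P} :
    u ∈ D.EV x₀ J ↔ (fun i => u i) ∈ D.EJ ℝ x₀ J := Iff.rfl

omit [Fintype X] in
theorem finrank_EV_le (x₀ : X) (J : Subgroup G) : finrank ℝ (D.EV x₀ J) ≤ J.index := by
  refine le_trans ?_ (D.finrank_EJ_le ℝ x₀ J)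
  let L : D.EV x₀ J →ₗ[ℝ] D.EJ ℝ x₀ J :=
    { toFun := fun u => ⟨fun i => (u : EuclideanSpace ℝ P) i, u.2⟩
      map_add' := fun u v => rfl
      map_smul' := fun a u => rfl }
  refine LinearMap.finrank_le_finrank_of_injective (f := L) ?_
  intro u v h
  apply Subtype.ext
  ext i
  exact congrFun (congrArg Subtype.val h) i

/-- The structure of the degenerate half systems. -/
theorem exists_data (hfaith : ∀ g : G, (∀ x : X, g • x = x) → g = 1) {z : G}
    (hz : ∀ x, D.c x = z • x) {x₀ x₁ : X}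
    (hne : MulAction.stabilizer G x₁ ≠ MulAction.stabilizer G x₀) {d : ℕ}
    (hd : ∀ J : Subgroup G, MulAction.stabilizer G x₀ ≤ J → J ≠ MulAction.stabilizer G x₀ →
      z ∉ J → J.index ≤ d) (hd2 : d ^ 2 < Fintype.card X) :
    (∃ t : G, ∀ x : X, ∃ k : ℕ, t ^ k • x₀ = x) ∨
    ∃ (V : Submodule ℚ (P → ℚ)) (R₂ : Finset (Submodule ℝ (EuclideanSpace ℝ P))),
      D.coc.PInv V ∧ finrank ℚ V ≤ d ∧
      (∀ W, D.coc.Mnl W → finrank ℝ W < 2 * finrank ℝ (D.coc.Hom W) → ∃ T ∈ D.coc.Hom W, T ≠ 0 ∧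
        ∀ w, T w ∈ rspan V) ∧ (∀ U ∈ R₂, D.coc.Inv U ∧ finrank ℝ U = 2) ∧ R₂.card ≤ d ∧
      (∀ W, D.coc.Mnl W → finrank ℝ W = 2 → finrank ℝ (D.coc.Hom W) = 1 → ∀ v : P → Bool,
        SOrth v W → ∃ U ∈ R₂, SOrth v U) := by
  classical
  by_cases ht : ∃ t : G, ∀ x : X, ∃ k : ℕ, t ^ k • x₀ = x
  · exact Or.inl ht
  right
  have hplane : ∀ U, D.coc.Inv U → finrank ℝ U = 2 → ∃ J : Subgroup G,
      MulAction.stabilizer G x₀ ≤ J ∧ J ≠ MulAction.stabilizer G x₀ ∧ z ∉ J ∧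
      ∀ u ∈ U, (fun i => u i) ∈ D.EJ ℝ x₀ J := fun U hU hU2 =>
    (plane_or hfaith hz hU hU2 hne).resolve_right ht
  have hindex : (MulAction.stabilizer G x₀).index = Fintype.card X := by
    rw [MulAction.index_stabilizer_of_transitive, Nat.card_eq_fintype_card]
  rcases exists_min_subgroup (MulAction.stabilizer G x₀) z hd (by rw [hindex]; exact hd2) with
    hno | ⟨J₁, hJ₁, hneJ₁, hzJ₁, hmin⟩
  · refine ⟨⊥, ∅, ?_, ?_, ?_, ?_, ?_, ?_⟩
    · intro g x hx
      rw [Submodule.mem_bot] at hx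
      rw [hx, map_zero]
      exact Submodule.zero_mem _
    · rw [finrank_bot]; exact Nat.zero_le _
    · intro W hW hlt
      obtain ⟨J, h1, h2, h3, -⟩ := exists_subgroup hW.1 hz hlt hne
      exact absurd (hno J h1 h2) h3
    · intro U hU
      exact absurd hU (notMem_empty U)
    · exact Nat.zero_le _
    · intro W hW hW2 _ v _
      obtain ⟨J, h1, h2, h3, -⟩ := hplane W hW.1 hW2
      exact absurd (hno J h1 h2) h3
  · have hJd : J₁.index ≤ d := hd J₁ hJ₁ hneJ₁ hzJ₁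
    obtain ⟨R, hR1, hR2, hR3⟩ := Coc.exists_reps_in (C := D.coc) (D.EV x₀ J₁)
    refine ⟨D.EJ ℚ x₀ J₁, R.filter fun U : Submodule ℝ (EuclideanSpace ℝ P) => finrank ℝ U = 2, D.EJ_pinv x₀ J₁,
      (D.finrank_EJ_le ℚ x₀ J₁).trans hJd, ?_, ?_, ?_, ?_⟩
    · intro W hW hlt
      obtain ⟨J, h1, h2, h3, T, hT, hT0, hTJ⟩ := exists_subgroup hW.1 hz hlt hne
      exact ⟨T, hT, hT0, fun w => D.mem_rspan_EJ x₀ J₁ (D.EJ_anti (hmin J h1 h2 h3) (hTJ w))⟩
    · intro U hU
      obtain ⟨hUR, hU2⟩ := mem_filter.1 hU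
      exact ⟨(hR1 U hUR).1.1, hU2⟩
    · have h1 : (R.filter fun U : Submodule ℝ (EuclideanSpace ℝ P) => finrank ℝ U = 2).card ≤ ∑ U ∈ R, finrank ℝ U := by
        rw [card_eq_sum_ones]
        refine le_trans (sum_le_sum (g := fun U : Submodule ℝ (EuclideanSpace ℝ P) => finrank ℝ U)
          fun U hU => ?_) (sum_le_sum_of_subset (filter_subset _ _))
        rw [(mem_filter.1 hU).2]
        norm_num
      exact h1.trans (hR3.trans ((finrank_EV_le x₀ J₁).trans hJd))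
    · intro W hW hW2 hW1 v hv
      obtain ⟨J, h1, h2, h3, hJ⟩ := hplane W hW.1 hW2
      have hWV : W ≤ D.EV x₀ J₁ := fun u hu => D.EJ_anti (hmin J h1 h2 h3) (hJ u hu)
      obtain ⟨U, hU, hUW⟩ := hR2 W hW hWV
      have h4 : U = W := img_eq hW.2.1 hW1 (hUW.symm (hR1 U hU).1)
      refine ⟨U, mem_filter.2 ⟨hU, by rw [h4, hW2]⟩, ?_⟩
      rw [h4]
      exact hv

open Classical in
/-- The number of degenerate half systems. -/
theorem grpA_count.{u, v, w} {G : Type u} {X : Type v} {P : Type w} [Group G] [Finite G]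
    [MulAction G X] [Fintype X] [MulAction G P] [Fintype P] {D : PairData G X P}
    [MulAction.IsPretransitive G X] (hfaith : ∀ g : G, (∀ x : X, g • x = x) → g = 1) {z : G}
    (hz : ∀ x, D.c x = z • x) {x₀ x₁ : X}
    (hne : MulAction.stabilizer G x₁ ≠ MulAction.stabilizer G x₀) {d : ℕ} (hd0 : 0 < d)
    (hd : ∀ J : Subgroup G, MulAction.stabilizer G x₀ ≤ J → J ≠ MulAction.stabilizer G x₀ →
      z ∉ J → J.index ≤ d) (hn : 2 ≤ Fintype.card P) :
    ({Φ : Finset X | (∀ x, x ∈ Φ ↔ D.c x ∉ Φ) ∧ ∃ f ∈ lat G D.c Φ, f ≠ 0}.ncard : ℝ)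
      ≤ (2 + 2 * C₆ + 3 * C₅.{u, w} + C₃) * ((d : ℝ) * Real.sqrt d *
        Real.sqrt (Real.log (Fintype.card P) / Fintype.card P)) * 2 ^ Fintype.card P := by
  set n := Fintype.card P with hndef
  have hC6 := C₆_nonneg
  have hC5 := C₅_pos.{u, w}
  have hC3 := C₃_pos
  have hXn : Fintype.card X = 2 * n := D.card_X
  have hnR : (2 : ℝ) ≤ n := by exact_mod_cast hn
  have hn0 : (0 : ℝ) < n := by linarith
  have hL := half_lt_log hn
  have hsL : 1 / 2 ≤ Real.sqrt (Real.log n) := Real.le_sqrt_of_sq_le (by linarith)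
  have hsn : 0 < Real.sqrt n := Real.sqrt_pos.2 hn0
  have hX : Real.sqrt (Real.log n / n) = Real.sqrt (Real.log n) / Real.sqrt n :=
    Real.sqrt_div (by linarith) _
  set s : ℝ := Real.sqrt (Real.log n / n) with hs
  have hs0 : 0 < s := by rw [hX]; positivity
  have hs1 : 1 / Real.sqrt n ≤ 2 * s := by
    rw [hX, ← mul_div_assoc]
    gcongr
    linarith
  have hdR : (1 : ℝ) ≤ d := by exact_mod_cast hd0
  have hsd : 1 ≤ Real.sqrt d := Real.one_le_sqrt.2 hdR
  have hpos : (0 : ℝ) < 2 ^ n := by positivity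
  have hdd : (1 : ℝ) ≤ d * Real.sqrt d := by nlinarith
  set bad : Set (Finset X) := {Φ | (∀ x, x ∈ Φ ↔ D.c x ∉ Φ) ∧ ∃ f ∈ lat G D.c Φ, f ≠ 0} with hbad
  have hvinj : Set.InjOn D.vec bad := fun Φ hΦ Φ' hΦ' h => D.vec_inj hΦ.1 hΦ'.1 h
  by_cases hd2 : d ^ 2 < Fintype.card X
  swap
  · -- trivial bound
    have h1 : (bad.ncard : ℝ) ≤ 2 ^ n := by
      have h2 : bad.ncard ≤ (Set.univ : Set (P → Bool)).ncard :=
        Set.ncard_le_ncard_of_injOn D.vec (fun _ _ => Set.mem_univ _) hvinj (Set.toFinite _)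
      rw [Set.ncard_univ, Nat.card_eq_fintype_card, Fintype.card_fun, Fintype.card_bool] at h2
      exact_mod_cast h2
    have h2 : (2 * n : ℝ) ≤ (d : ℝ) ^ 2 := by
      have h3 : 2 * n ≤ d ^ 2 := by omega
      exact_mod_cast h3
    have h3 : Real.sqrt n ≤ d := by
      rw [Real.sqrt_le_left (by linarith)]
      linarith
    have h4 : 1 ≤ 2 * ((d : ℝ) * Real.sqrt d * s) := by
      have h5 : 1 ≤ 2 * (Real.sqrt n * s) := by
        have h6 := mul_le_mul_of_nonneg_left hs1 hsn.le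
        rw [mul_one_div, div_self hsn.ne'] at h6
        linarith
      calc (1 : ℝ) ≤ 2 * (Real.sqrt n * s) := h5
        _ ≤ 2 * ((d : ℝ) * Real.sqrt d * s) := by
          have h7 : Real.sqrt n ≤ d * Real.sqrt d := by nlinarith
          gcongr
    calc (bad.ncard : ℝ) ≤ 1 * 2 ^ n := by rw [one_mul]; exact h1
      _ ≤ (2 * ((d : ℝ) * Real.sqrt d * s)) * 2 ^ n := by gcongr
      _ ≤ _ := by
        gcongr
        linarith
  rcases exists_data hfaith hz hne hd hd2 with ⟨t, ht⟩ | ⟨V, R₂, hV, hVd, hTV, hR₂, hRd, hR₂'⟩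
  · have h1 := cyc_count hfaith D.hcc D.hcg D.hne ht hXn
    refine h1.trans ?_
    have h2 : C₆ / Real.sqrt n ≤ 2 * C₆ * s := by
      have h3 := mul_le_mul_of_nonneg_left hs1 hC6
      rw [mul_one_div] at h3
      linarith
    have h3 : C₆ / Real.sqrt n ≤ (2 + 2 * C₆ + 3 * C₅.{u, w} + C₃) * ((d : ℝ) * Real.sqrt d * s) := by
      have h4 : s ≤ (d : ℝ) * Real.sqrt d * s := by nlinarith
      calc C₆ / Real.sqrt n ≤ 2 * C₆ * s := h2
        _ ≤ (2 + 2 * C₆ + 3 * C₅.{u, w} + C₃) * ((d : ℝ) * Real.sqrt d * s) := by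
          gcongr
          linarith
    gcongr
  · let fG : Fintype G := Fintype.ofFinite G
    have : MulAction.IsPretransitive G P := by
      refine ⟨fun i j => ?_⟩
      obtain ⟨g, hg⟩ := MulAction.exists_smul_eq G (D.r i) (D.r j)
      exact ⟨g, by rw [← D.hr i, ← D.hπ, hg, D.hr]⟩
    let A : Finset (P → Bool) := univ.filter fun v : P → Bool => ∃ W, D.coc.Mnl W ∧
        2 * finrank ℝ (D.coc.Hom W) ≤ finrank ℝ W ∧ SOrth v W
    have hA := half_le.{u, w}.choose_spec.2 G P D.coc R₂ hR₂ hR₂' hn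
    have hK := kill_count_rat D.coc hn V hV hd0 hVd
    have hsub : D.vec '' bad ⊆ (A : Set (P → Bool)) ∪ D.coc.KillSet V := by
      rintro _ ⟨Φ, ⟨hΦ, f, hf, hf0⟩, rfl⟩
      obtain ⟨W₀, hW₀, hW₀0, hvW₀⟩ := D.exists_inv_of_lat hΦ hf hf0
      obtain ⟨W, hWW, hW⟩ := D.coc.exists_mnl hW₀ hW₀0
      have hv : SOrth (D.vec Φ) W := fun x hx => hvW₀ x (hWW hx)
      by_cases hcase : 2 * finrank ℝ (D.coc.Hom W) ≤ finrank ℝ W
      · left
        exact mem_coe.2 (mem_filter.2 ⟨mem_univ _, W, hW, hcase, hv⟩)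
      · right
        obtain ⟨T, hT, hT0, hTw⟩ := hTV W hW (by omega)
        exact mem_killSet_of_hom D.coc hW.1 hT hT0 hTw hv
    have h1 : (bad.ncard : ℝ) ≤ A.card + (D.coc.KillSet V).ncard := by
      have h2 : bad.ncard = (D.vec '' bad).ncard := hvinj.ncard_image.symm
      have h3 := Set.ncard_le_ncard hsub (Set.toFinite _)
      have h4 := Set.ncard_union_le (A : Set (P → Bool)) (D.coc.KillSet V)
      rw [Set.ncard_coe_finset] at h4
      have h5 : bad.ncard ≤ A.card + (D.coc.KillSet V).ncard := by rw [h2]; omega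
      exact_mod_cast h5
    have hA' : (A.card : ℝ) ≤ C₅.{u, w} * (s + R₂.card / n) * 2 ^ n := by
      exact hA
    have h2 : (R₂.card : ℝ) / n ≤ 2 * ((d : ℝ) * s) := by
      have h3 : (R₂.card : ℝ) ≤ d := by exact_mod_cast hRd
      have h4 : 1 / (n : ℝ) ≤ 1 / Real.sqrt n := by
        apply one_div_le_one_div_of_le hsn
        rw [Real.sqrt_le_left hn0.le]
        nlinarith
      calc (R₂.card : ℝ) / n = R₂.card * (1 / n) := by ring
        _ ≤ d * (2 * s) := by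
          have := h4.trans hs1
          gcongr
        _ = _ := by ring
    have h3 : s + (R₂.card : ℝ) / n ≤ 3 * ((d : ℝ) * Real.sqrt d * s) := by
      have h4 : s ≤ (d : ℝ) * Real.sqrt d * s := by nlinarith
      have h5 : (d : ℝ) * s ≤ (d : ℝ) * Real.sqrt d * s := by
        have : (d : ℝ) ≤ d * Real.sqrt d := by nlinarith
        gcongr
      linarith
    calc (bad.ncard : ℝ) ≤ A.card + (D.coc.KillSet V).ncard := h1
      _ ≤ C₅.{u, w} * (3 * ((d : ℝ) * Real.sqrt d * s)) * 2 ^ n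
          + C₃ * ((d : ℝ) * Real.sqrt d * s) * 2 ^ n := by
        refine add_le_add (hA'.trans ?_) hK
        gcongr
      _ = (3 * C₅.{u, w} + C₃) * ((d : ℝ) * Real.sqrt d * s) * 2 ^ n := by ring
      _ ≤ _ := by
        gcongr
        linarith

end PairData

end Pool.MP43e44c
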