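import Mathlib

/-!
Numerical estimates.
-/

set_option autoImplicit false

namespace Pool.MP43e44c

/-- The bound for the operator norm. -/
noncomputable def lam (n N : ℕ) : ℝ := Real.sqrt (40 + 16 * (Real.log n / N))

theorem lam_arg_nonneg (n N : ℕ) : 0 ≤ Real.log n / N :=
  div_nonneg (Real.log_natCast_nonneg n) (Nat.cast_nonneg N)

theorem lam_sq (n N : ℕ) : lam n N ^ 2 = 40 + 16 * (Real.log n / N) :=
  Real.sq_sqrt (by have := lam_arg_nonneg n N; linarith)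

theorem one_le_lam (n N : ℕ) : 1 ≤ lam n N := by
  unfold lam
  rw [Real.one_le_sqrt]
  have := lam_arg_nonneg n N
  linarith

theorem sq_le_pow (N : ℕ) : (N : ℝ) ^ 2 ≤ 4 * (3 / 2) ^ N := by
  induction N with
  | zero => norm_num
  | succ m ih =>
    rcases Nat.lt_or_ge m 5 with h | h
    · interval_cases m <;> norm_num
    · have hm : (5 : ℝ) ≤ m := by exact_mod_cast h
      have h1 : ((m + 1 : ℕ) : ℝ) ^ 2 ≤ 3 / 2 * (m : ℝ) ^ 2 := by
        push_cast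
        nlinarith
      calc ((m + 1 : ℕ) : ℝ) ^ 2 ≤ 3 / 2 * (m : ℝ) ^ 2 := h1
        _ ≤ 3 / 2 * (4 * (3 / 2) ^ m) := by gcongr
        _ = 4 * (3 / 2) ^ (m + 1) := by ring

theorem tail_le {n N h : ℕ} (hn : 1 ≤ n) (hh1 : 1 ≤ h) (hh : h ≤ N) :
    (2 * h * 9 ^ (h - 1)) * (2 * N * 9 ^ (N - 1)) * Real.exp (-(lam n N) ^ 2 * N / 8)
      ≤ 1 / (n : ℝ) ^ 2 := by
  have hN : 1 ≤ N := hh1.trans hh
  have hNR : (1 : ℝ) ≤ N := by exact_mod_cast hN
  have hnR : (0 : ℝ) < n := by exact_mod_cast hn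
  have h1 : -(lam n N) ^ 2 * N / 8 = (N : ℝ) * (-5) + -(2 * Real.log n) := by
    rw [lam_sq]
    field_simp
    ring
  have h2 : Real.exp (-(2 * Real.log n)) = 1 / (n : ℝ) ^ 2 := by
    rw [Real.exp_neg, mul_comm, Real.exp_mul, Real.exp_log hnR]
    norm_num
  have h3 : Real.exp ((N : ℝ) * (-5)) = Real.exp (-5) ^ N := by rw [Real.exp_nat_mul]
  rw [h1, Real.exp_add, h2, h3]
  have h5 : Real.exp (-5) ≤ 1 / 140 := by
    rw [Real.exp_neg, ← one_div]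
    apply one_div_le_one_div_of_le (by norm_num)
    have h6 : Real.exp 5 = Real.exp 1 ^ 5 := by rw [← Real.exp_nat_mul]; norm_num
    rw [h6]
    have h7 : (2.71 : ℝ) ≤ Real.exp 1 := by
      have := Real.exp_one_gt_d9
      linarith
    calc (140 : ℝ) ≤ 2.71 ^ 5 := by norm_num
      _ ≤ _ := by gcongr
  have h4 : (2 * h * 9 ^ (h - 1) : ℝ) ≤ 2 * N * 9 ^ (N - 1) := by
    have e1 : (h : ℝ) ≤ N := by exact_mod_cast hh
    have e2 : (9 : ℝ) ^ (h - 1) ≤ 9 ^ (N - 1) := pow_le_pow_right₀ (by norm_num) (by omega)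
    gcongr
  have h8 : (2 * N * 9 ^ (N - 1) : ℝ) * (2 * N * 9 ^ (N - 1)) * (1 / 140) ^ N ≤ 1 := by
    obtain ⟨m, rfl⟩ : ∃ m, N = m + 1 := ⟨N - 1, by omega⟩
    rw [Nat.add_sub_cancel]
    have e1 := sq_le_pow (m + 1)
    calc (2 * ((m + 1 : ℕ) : ℝ) * 9 ^ m) * (2 * ((m + 1 : ℕ) : ℝ) * 9 ^ m) * (1 / 140) ^ (m + 1)
        = 4 * ((m + 1 : ℕ) : ℝ) ^ 2 * (9 ^ m * 9 ^ m) * (1 / 140) ^ (m + 1) := by ring
      _ = 4 * ((m + 1 : ℕ) : ℝ) ^ 2 * 81 ^ m * (1 / 140) ^ (m + 1) := by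
          rw [← mul_pow]; norm_num
      _ ≤ 4 * (4 * (3 / 2) ^ (m + 1)) * 81 ^ m * (1 / 140) ^ (m + 1) := by gcongr
      _ = 16 / 81 * ((3 / 2) ^ (m + 1) * 81 ^ (m + 1) * (1 / 140) ^ (m + 1)) := by ring
      _ = 16 / 81 * (3 / 2 * 81 * (1 / 140)) ^ (m + 1) := by rw [← mul_pow, ← mul_pow]
      _ ≤ 16 / 81 * 1 := by
          refine mul_le_mul_of_nonneg_left (pow_le_one₀ (by norm_num) (by norm_num))
            (by norm_num)
      _ ≤ 1 := by norm_num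
  have hn2 : (0 : ℝ) < 1 / (n : ℝ) ^ 2 := by positivity
  calc (2 * h * 9 ^ (h - 1) : ℝ) * (2 * N * 9 ^ (N - 1)) * (Real.exp (-5) ^ N * (1 / (n : ℝ) ^ 2))
      ≤ (2 * N * 9 ^ (N - 1)) * (2 * N * 9 ^ (N - 1)) * ((1 / 140) ^ N * (1 / (n : ℝ) ^ 2)) := by
        gcongr
    _ = ((2 * N * 9 ^ (N - 1)) * (2 * N * 9 ^ (N - 1)) * (1 / 140) ^ N) * (1 / (n : ℝ) ^ 2) := by
        ring
    _ ≤ 1 * (1 / (n : ℝ) ^ 2) := by gcongr
    _ = _ := one_mul _

theorem half_lt_log {n : ℕ} (hn : 2 ≤ n) : 1 / 2 < Real.log n := by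
  have h1 := Real.log_two_gt_d9
  have h2 : Real.log 2 ≤ Real.log n := Real.log_le_log (by norm_num) (by exact_mod_cast hn)
  linarith

/-- The contribution of the special types. -/
theorem special_le {n N h : ℕ} {k κ : ℝ} (hn : 2 ≤ n) (hh1 : 1 ≤ h) (hh : h ≤ N)
    (hk : (n : ℝ) = k * N) (hk2 : 2 ≤ k) (hκ0 : 0 ≤ κ) (hκ : κ ≤ 13 / 5 / Real.sqrt k) :
    2 * h * (1 + 8 * (lam n N * Real.sqrt k)) ^ (h - 1) * κ ^ N
      ≤ 2 * N * Real.sqrt (N / n) * Real.sqrt (60000 * Real.log n) ^ N := by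
  have hN : 1 ≤ N := hh1.trans hh
  have hNR : (1 : ℝ) ≤ N := by exact_mod_cast hN
  have hL := half_lt_log hn
  have hl1 := one_le_lam n N
  have hsk : 1 ≤ Real.sqrt k := Real.one_le_sqrt.2 (by linarith)
  have hsk0 : 0 < Real.sqrt k := by linarith
  have hΛ0 : 0 < lam n N := by linarith
  have h1 : 1 + 8 * (lam n N * Real.sqrt k) ≤ 9 * (lam n N * Real.sqrt k) := by nlinarith
  have h1' : 1 ≤ 9 * (lam n N * Real.sqrt k) := by nlinarith
  have h2 : (1 + 8 * (lam n N * Real.sqrt k)) ^ (h - 1)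
      ≤ (9 * (lam n N * Real.sqrt k)) ^ (N - 1) := by
    calc (1 + 8 * (lam n N * Real.sqrt k)) ^ (h - 1) ≤ (9 * (lam n N * Real.sqrt k)) ^ (h - 1) := by
          gcongr
      _ ≤ _ := pow_le_pow_right₀ h1' (by omega)
  have hsqrtk : Real.sqrt (N / n) = 1 / Real.sqrt k := by
    rw [hk, ← Real.sqrt_one, ← Real.sqrt_div zero_le_one]
    congr 1
    field_simp
  have hlam : lam n N ≤ Real.sqrt (100 * Real.log n) := by
    unfold lam
    apply Real.sqrt_le_sqrt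
    have h3 : Real.log n / N ≤ Real.log n := div_le_self (by linarith) hNR
    linarith
  have hbase : 9 * lam n N * (13 / 5) ≤ Real.sqrt (60000 * Real.log n) := by
    have h4 : Real.sqrt (60000 * Real.log n) = Real.sqrt 600 * Real.sqrt (100 * Real.log n) := by
      rw [← Real.sqrt_mul (by norm_num)]
      congr 1
      ring
    rw [h4]
    have h5 : (24 : ℝ) ≤ Real.sqrt 600 := Real.le_sqrt_of_sq_le (by norm_num)
    calc 9 * lam n N * (13 / 5) ≤ 24 * lam n N := by linarith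
      _ ≤ Real.sqrt 600 * Real.sqrt (100 * Real.log n) := by gcongr
  have h6 : (9 * (lam n N * Real.sqrt k)) ^ (N - 1) * (13 / 5 / Real.sqrt k) ^ N
      ≤ Real.sqrt (60000 * Real.log n) ^ N * (1 / Real.sqrt k) := by
    obtain ⟨m, rfl⟩ : ∃ m, N = m + 1 := ⟨N - 1, by omega⟩
    rw [Nat.add_sub_cancel]
    have e1 : (9 * (lam n (m + 1) * Real.sqrt k)) ^ m * (13 / 5 / Real.sqrt k) ^ (m + 1)
        = (9 * lam n (m + 1) * (13 / 5)) ^ m * (13 / 5) * (1 / Real.sqrt k) := by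
      rw [pow_succ, ← mul_assoc, ← mul_pow]
      have : 9 * (lam n (m + 1) * Real.sqrt k) * (13 / 5 / Real.sqrt k)
          = 9 * lam n (m + 1) * (13 / 5) := by field_simp
      rw [this]
      ring
    rw [e1, pow_succ]
    have e2 : (13 / 5 : ℝ) ≤ Real.sqrt (60000 * Real.log n) := by
      refine le_trans ?_ hbase
      nlinarith
    have e3 : 0 ≤ 9 * lam n (m + 1) * (13 / 5) := by positivity
    gcongr
  rw [hsqrtk]
  calc 2 * h * (1 + 8 * (lam n N * Real.sqrt k)) ^ (h - 1) * κ ^ N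
      ≤ 2 * N * (9 * (lam n N * Real.sqrt k)) ^ (N - 1) * (13 / 5 / Real.sqrt k) ^ N := by
        have : (h : ℝ) ≤ N := by exact_mod_cast hh
        gcongr
    _ = 2 * N * ((9 * (lam n N * Real.sqrt k)) ^ (N - 1) * (13 / 5 / Real.sqrt k) ^ N) := by ring
    _ ≤ 2 * N * (Real.sqrt (60000 * Real.log n) ^ N * (1 / Real.sqrt k)) := by gcongr
    _ = _ := by ring

end Pool.MP43e44c
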