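import Pool.Agent.H.MP_43e44c_ag.PS.Sep

/-!
Planes on which the group acts faithfully.
-/

set_option autoImplicit false

open Finset Module

namespace Pool.MP43e44c

/-- Rotations and reflections: a finite group acting faithfully on a plane by isometries, with a
functional whose stabiliser is the stabiliser of a point and is not trivial. -/
theorem exists_gen_of_plane {G X : Type*} [Group G] [Finite G] [MulAction G X] [Finite X]
    [MulAction.IsPretransitive G X] (x₀ : X) {U : Type*} [NormedAddCommGroup U]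
    [InnerProductSpace ℝ U] (hU : finrank ℝ U = 2) (ρ : G → U →ₗ[ℝ] U) (hρ1 : ∀ u, ρ 1 u = u)
    (hρm : ∀ g h u, ρ (g * h) u = ρ g (ρ h u)) (hρi : ∀ g u v, inner ℝ (ρ g u) (ρ g v) = inner ℝ u v)
    (hker : ∀ g, (∀ u, ρ g u = u) → g = 1) {l : U →ₗ[ℝ] ℝ} (hl : l ≠ 0)
    (hstab : ∀ g, g • x₀ = x₀ → ∀ u, l (ρ g u) = l u)
    (hH : ∃ g : G, g • x₀ = x₀ ∧ g ≠ 1) : ∃ t : G, ∀ x : X, ∃ k : ℕ, t ^ k • x₀ = x := by
  classical
  have : FiniteDimensional ℝ U := Module.finite_of_finrank_pos (by rw [hU]; norm_num)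
  let B : OrthonormalBasis (Fin 2) ℝ U := (stdOrthonormalBasis ℝ U).reindex (finCongr hU)
  obtain ⟨e₁, he₁⟩ : ∃ e, e = B 0 := ⟨_, rfl⟩
  obtain ⟨e₂, he₂⟩ : ∃ e, e = B 1 := ⟨_, rfl⟩
  have h11 : inner ℝ e₁ e₁ = (1 : ℝ) := by
    rw [he₁, real_inner_self_eq_norm_sq, B.orthonormal.1, one_pow]
  have h22 : inner ℝ e₂ e₂ = (1 : ℝ) := by
    rw [he₂, real_inner_self_eq_norm_sq, B.orthonormal.1, one_pow]
  have h12 : inner ℝ e₁ e₂ = (0 : ℝ) := by
    rw [he₁, he₂]; exact B.orthonormal.2 (by decide)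
  have h21 : inner ℝ e₂ e₁ = (0 : ℝ) := by rw [real_inner_comm]; exact h12
  have hexp : ∀ u : U, u = (inner ℝ e₁ u : ℝ) • e₁ + (inner ℝ e₂ u : ℝ) • e₂ := by
    intro u
    have h1 := B.sum_repr' u
    rw [Fin.sum_univ_two, ← he₁, ← he₂] at h1
    exact h1.symm
  let a : G → ℝ := fun g => inner ℝ e₁ (ρ g e₁)
  let c : G → ℝ := fun g => inner ℝ e₂ (ρ g e₁)
  let b : G → ℝ := fun g => inner ℝ e₁ (ρ g e₂)
  let d : G → ℝ := fun g => inner ℝ e₂ (ρ g e₂)
  have hg1 : ∀ g, ρ g e₁ = a g • e₁ + c g • e₂ := fun g => hexp _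
  have hg2 : ∀ g, ρ g e₂ = b g • e₁ + d g • e₂ := fun g => hexp _
  have hin : ∀ x y x' y' : ℝ, inner ℝ (x • e₁ + y • e₂) (x' • e₁ + y' • e₂) = x * x' + y * y' := by
    intro x y x' y'
    simp only [inner_add_left, inner_add_right, inner_smul_left, inner_smul_right, h11, h22, h12,
      h21, conj_trivial]
    ring
  have o1 : ∀ g, a g * a g + c g * c g = 1 := by
    intro g
    rw [← hin, ← hg1, hρi, h11]
  have o2 : ∀ g, b g * b g + d g * d g = 1 := by
    intro g
    rw [← hin, ← hg2, hρi, h22]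
  have o3 : ∀ g, a g * b g + c g * d g = 0 := by
    intro g
    rw [← hin, ← hg1, ← hg2, hρi, h12]
  have m1 : ∀ g h, ρ (g * h) e₁ = (a h * a g + c h * b g) • e₁ + (a h * c g + c h * d g) • e₂ := by
    intro g h
    rw [hρm, hg1 h, map_add, map_smul, map_smul, hg1 g, hg2 g]
    module
  have m2 : ∀ g h, ρ (g * h) e₂ = (b h * a g + d h * b g) • e₁ + (b h * c g + d h * d g) • e₂ := by
    intro g h
    rw [hρm, hg2 h, map_add, map_smul, map_smul, hg1 g, hg2 g]
    module
  have hc1 : ∀ x y : ℝ, inner ℝ e₁ (x • e₁ + y • e₂) = x := by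
    intro x y
    rw [inner_add_right, inner_smul_right, inner_smul_right, h11, h12]; ring
  have hc2 : ∀ x y : ℝ, inner ℝ e₂ (x • e₁ + y • e₂) = y := by
    intro x y
    rw [inner_add_right, inner_smul_right, inner_smul_right, h21, h22]; ring
  have ma : ∀ g h, a (g * h) = a h * a g + c h * b g := fun g h => by
    show inner ℝ e₁ (ρ (g * h) e₁) = _
    rw [m1, hc1]
  have mc : ∀ g h, c (g * h) = a h * c g + c h * d g := fun g h => by
    show inner ℝ e₂ (ρ (g * h) e₁) = _
    rw [m1, hc2]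
  have mb : ∀ g h, b (g * h) = b h * a g + d h * b g := fun g h => by
    show inner ℝ e₁ (ρ (g * h) e₂) = _
    rw [m2, hc1]
  have md : ∀ g h, d (g * h) = b h * c g + d h * d g := fun g h => by
    show inner ℝ e₂ (ρ (g * h) e₂) = _
    rw [m2, hc2]
  have a1 : a 1 = 1 := by show inner ℝ e₁ (ρ 1 e₁) = _; rw [hρ1, h11]
  have b1 : b 1 = 0 := by show inner ℝ e₁ (ρ 1 e₂) = _; rw [hρ1, h12]
  have c1 : c 1 = 0 := by show inner ℝ e₂ (ρ 1 e₁) = _; rw [hρ1, h21]
  have d1 : d 1 = 1 := by show inner ℝ e₂ (ρ 1 e₂) = _; rw [hρ1, h22]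
  let δ : G → ℝ := fun g => a g * d g - b g * c g
  have δ1 : δ 1 = 1 := by show a 1 * d 1 - b 1 * c 1 = 1; rw [a1, b1, c1, d1]; ring
  have δm : ∀ g h, δ (g * h) = δ g * δ h := by
    intro g h
    show a (g * h) * d (g * h) - b (g * h) * c (g * h) = (a g * d g - b g * c g) *
      (a h * d h - b h * c h)
    rw [ma, mb, mc, md]; ring
  have δ2 : ∀ g, δ g = 1 ∨ δ g = -1 := by
    intro g
    have h1 : δ g * δ g = 1 := by
      show (a g * d g - b g * c g) * (a g * d g - b g * c g) = 1
      have e1 := o1 g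
      have e2 := o2 g
      have e3 := o3 g
      linear_combination (d g * d g + b g * b g) * e1 + e2 - (a g * b g + c g * d g) * e3
    exact mul_self_eq_one_iff.1 h1
  let R : Subgroup G :=
    { carrier := {g | δ g = 1}
      one_mem' := δ1
      mul_mem' := by
        intro g h hg hh
        show δ (g * h) = 1
        rw [δm, hg, hh, mul_one]
      inv_mem' := by
        intro g hg
        have h1 := δm g⁻¹ g
        rw [inv_mul_cancel, δ1, (show δ g = 1 from hg), mul_one] at h1
        exact h1.symm }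
  have hRmem : ∀ g, g ∈ R ↔ δ g = 1 := fun g => Iff.rfl
  have rd : ∀ g ∈ R, d g = a g := by
    intro g hg
    have h0 : a g * d g - b g * c g = 1 := hg
    have e1 := o1 g
    have e3 := o3 g
    linear_combination (-(d g)) * e1 + (a g) * h0 + (c g) * e3
  have rb : ∀ g ∈ R, b g = - c g := by
    intro g hg
    have h0 : a g * d g - b g * c g = 1 := hg
    have e1 := o1 g
    have e3 := o3 g
    linear_combination (-(b g)) * e1 - (c g) * h0 + (a g) * e3
  -- faithful action
  have htriv : ∀ g ∈ R, a g = 1 → c g = 0 → g = 1 := by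
    intro g hg h1 h2
    apply hker
    intro u
    rw [hexp u, map_add, map_smul, map_smul, hg1, hg2, rd g hg, rb g hg, h1, h2]
    simp
  let f : R →* ℂ :=
    { toFun := fun g => (a g : ℂ) + (c g : ℂ) * Complex.I
      map_one' := by
        show ((a 1 : ℝ) : ℂ) + ((c 1 : ℝ) : ℂ) * Complex.I = 1
        rw [a1, c1]; simp
      map_mul' := by
        intro g h
        show ((a (g * h) : ℝ) : ℂ) + ((c (g * h) : ℝ) : ℂ) * Complex.I = _
        rw [ma, mc, rb g g.2, rd g g.2]
        push_cast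
        ring_nf
        rw [Complex.I_sq]
        ring }
  have hf : Function.Injective f := by
    rw [injective_iff_map_eq_one]
    intro g hg
    have h1 : ((a g : ℝ) : ℂ) + ((c g : ℝ) : ℂ) * Complex.I = 1 := hg
    have h2 := congrArg Complex.re h1
    have h3 := congrArg Complex.im h1
    simp at h2 h3
    exact Subtype.ext (htriv g g.2 h2 h3)
  have hcyc : IsCyclic R := isCyclic_of_injective_ringHom f hf
  -- the intersection with the stabiliser
  have hint : ∀ g ∈ R, g • x₀ = x₀ → g = 1 := by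
    intro g hg hgx
    have h1 := hstab g hgx e₁
    have h2 := hstab g hgx e₂
    rw [hg1, map_add, map_smul, map_smul, smul_eq_mul, smul_eq_mul] at h1
    rw [hg2, map_add, map_smul, map_smul, smul_eq_mul, smul_eq_mul, rb g hg, rd g hg] at h2
    have h3 : l e₁ * l e₁ + l e₂ * l e₂ ≠ 0 := by
      intro h
      apply hl
      have h4 : l e₁ = 0 := by nlinarith [mul_self_nonneg (l e₁), mul_self_nonneg (l e₂)]
      have h5 : l e₂ = 0 := by nlinarith [mul_self_nonneg (l e₁), mul_self_nonneg (l e₂)]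
      ext u
      rw [hexp u, map_add, map_smul, map_smul, h4, h5]
      simp
    have h4 : (a g - 1) * (l e₁ * l e₁ + l e₂ * l e₂) = 0 := by
      linear_combination (l e₁) * h1 + (l e₂) * h2
    have h5 : c g * (l e₁ * l e₁ + l e₂ * l e₂) = 0 := by
      linear_combination (l e₂) * h1 - (l e₁) * h2
    have h6 := (mul_eq_zero.1 h4).resolve_right h3
    have h7 := (mul_eq_zero.1 h5).resolve_right h3
    exact htriv g hg (by linarith) h7
  -- counting
  have hindex : R.index ≤ 2 := by
    by_cases hall : ∃ g, g ∉ R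
    · obtain ⟨g, hg⟩ := hall
      have hg' : δ g = -1 := (δ2 g).resolve_left hg
      have h1 : R.index = 2 := by
        rw [Subgroup.index_eq_two_iff]
        refine ⟨g, fun h => ?_⟩
        rw [hRmem, hRmem, δm, hg']
        rcases δ2 h with h1 | h1 <;> rw [h1] <;> norm_num [Xor]
      omega
    · push Not at hall
      have h1 : R = ⊤ := by
        rw [Subgroup.eq_top_iff']
        exact hall
      rw [h1, Subgroup.index_top]
      norm_num
  have hcard : Nat.card X ≤ Nat.card R := by
    have h1 := Subgroup.card_mul_index R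
    have h2 := Subgroup.card_mul_index (MulAction.stabilizer G x₀)
    rw [MulAction.index_stabilizer_of_transitive] at h2
    have h3 : 2 ≤ Nat.card (MulAction.stabilizer G x₀) := by
      obtain ⟨g, hg, hg1⟩ := hH
      have h4 : Nontrivial (MulAction.stabilizer G x₀) :=
        ⟨⟨⟨g, hg⟩, 1, fun h => hg1 (congrArg Subtype.val h)⟩⟩
      have h5 := Finite.one_lt_card (α := MulAction.stabilizer G x₀)
      omega
    have h4 : 2 * Nat.card X ≤ Nat.card (MulAction.stabilizer G x₀) * Nat.card X :=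
      Nat.mul_le_mul_right _ h3
    have h5 : Nat.card R * R.index ≤ Nat.card R * 2 := Nat.mul_le_mul_left _ hindex
    omega
  let F : R → X := fun g => (g : G) • x₀
  have hF : Function.Injective F := by
    intro g h hgh
    have h1 : (g : G) • x₀ = (h : G) • x₀ := hgh
    have h2 : ((h⁻¹ * g : R) : G) • x₀ = x₀ := by
      rw [Subgroup.coe_mul, Subgroup.coe_inv, mul_smul, h1, inv_smul_smul]
    have h3 := hint _ (h⁻¹ * g).2 h2
    have h4 : h⁻¹ * g = 1 := Subtype.ext h3
    exact (inv_mul_eq_one.1 h4).symm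
  have hFs : Function.Surjective F := by
    have h1 : Nat.card R = Nat.card X := le_antisymm (Nat.card_le_card_of_injective F hF) hcard
    exact ((Nat.bijective_iff_injective_and_card F).2 ⟨hF, h1⟩).2
  obtain ⟨t, ht⟩ := IsCyclic.exists_monoid_generator (α := R)
  refine ⟨t, fun x => ?_⟩
  obtain ⟨g, rfl⟩ := hFs x
  obtain ⟨k, hk⟩ := ht g
  refine ⟨k, ?_⟩
  show ((t : G)) ^ k • x₀ = (g : G) • x₀
  rw [← hk]
  rfl

namespace PairData

variable {G X P : Type*} [Group G] [Finite G] [MulAction G X] [Finite X] [MulAction G P]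
  [Fintype P] {D : PairData G X P} [MulAction.IsPretransitive G X]

/-- Invariant planes. -/
theorem plane_or (hfaith : ∀ g : G, (∀ x : X, g • x = x) → g = 1) {z : G}
    (hz : ∀ x, D.c x = z • x) {U : Submodule ℝ (EuclideanSpace ℝ P)} (hU : D.coc.Inv U)
    (hU2 : finrank ℝ U = 2) {x₀ x₁ : X}
    (hne : MulAction.stabilizer G x₁ ≠ MulAction.stabilizer G x₀) :
    (∃ J : Subgroup G, MulAction.stabilizer G x₀ ≤ J ∧ J ≠ MulAction.stabilizer G x₀ ∧ z ∉ J ∧
      ∀ u ∈ U, (fun i => u i) ∈ D.EJ ℝ x₀ J) ∨ ∃ t : G, ∀ x : X, ∃ k : ℕ, t ^ k • x₀ = x := by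
  have hU0 : U ≠ ⊥ := by
    rintro rfl
    rw [finrank_bot] at hU2
    omega
  have hT : U.subtypeL ∈ D.coc.Hom U := Coc.subtype_mem_hom U
  have hT0 : U.subtypeL ≠ 0 := Coc.subtype_ne_zero hU0
  obtain ⟨l, hl⟩ : ∃ l, l = D.evx U x₀ U.subtypeL := ⟨_, rfl⟩
  have hl0 : l ≠ 0 := by
    intro h
    rw [hl] at h
    exact hT0 (evx_injective hU hT h)
  have hHJ : MulAction.stabilizer G x₀ ≤ stabL hU l := by
    rw [hl]; exact stabilizer_le_stabL hU hT x₀
  by_cases hJ : stabL hU l = MulAction.stabilizer G x₀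
  · right
    let ρ : G → U →ₗ[ℝ] U := fun g => (D.coc.act g).restrict (fun u hu => hU g u hu)
    have hρ : ∀ g u, ρ g u = D.actU hU g u := fun g u => rfl
    refine exists_gen_of_plane x₀ hU2 ρ (fun u => actU_one hU u) (fun g h u => actU_mul hU g h u)
      (fun g u v => D.coc.inner_act g u v) ?_ hl0 (fun g hg u => hHJ hg u) ?_
    · -- faithful action on the plane
      intro g hg
      apply hfaith
      intro x
      obtain ⟨k, rfl⟩ := MulAction.exists_smul_eq G x₀ x
      have h1 : k⁻¹ * g * k ∈ stabL hU l := by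
        intro u
        rw [actU_mul, actU_mul]
        have h2 : D.actU hU g (D.actU hU k u) = D.actU hU k u := by
          have h3 := hg (D.actU hU k u)
          rw [hρ] at h3
          exact h3
        rw [h2, ← actU_mul, inv_mul_cancel, actU_one]
      rw [hJ, MulAction.mem_stabilizer_iff, mul_smul, mul_smul, inv_smul_eq_iff] at h1
      exact h1
    · -- the stabiliser is not trivial
      by_contra hcon
      push Not at hcon
      apply hne
      obtain ⟨k, rfl⟩ := MulAction.exists_smul_eq G x₀ x₁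
      ext g
      rw [MulAction.mem_stabilizer_iff, MulAction.mem_stabilizer_iff]
      constructor
      · intro h
        have h1 : (k⁻¹ * g * k) • x₀ = x₀ := by rw [mul_smul, mul_smul, h, inv_smul_smul]
        have h2 := hcon _ h1
        have h3 : g = 1 := by
          have h4 : g = k * (k⁻¹ * g * k) * k⁻¹ := by group
          rw [h4, h2]; group
        rw [h3, one_smul]
      · intro h
        rw [hcon g h, one_smul]
  · left
    refine ⟨stabL hU l, hHJ, hJ, z_notMem_stabL hU hz hl0, fun u hu => ?_⟩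
    rw [hl]
    exact mem_EJ_stabL hU hT x₀ ⟨u, hu⟩

end PairData

end Pool.MP43e44c
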