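import Pool.Agent.H.MP_43e44c_ag.PS.Ext
import Pool.Agent.H.MP_43e44c_ag.PS.Img

/-!
Minimal subspaces of large multiplicity and subgroups containing the stabiliser.
-/

set_option autoImplicit false

open Finset Module

namespace Pool.MP43e44c

namespace PairData

variable {G X P : Type*} [Group G] [MulAction G X] [MulAction G P] [Fintype P]
  (D : PairData G X P)

/-- The value of the odd extension at a point, as a functional. -/
noncomputable def evx (U : Submodule ℝ (EuclideanSpace ℝ P)) (x : X) :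
    (U →L[ℝ] EuclideanSpace ℝ P) →ₗ[ℝ] (U →ₗ[ℝ] ℝ) where
  toFun T :=
    { toFun := fun u => D.ext (fun i => T u i) x
      map_add' := fun u u' => by
        rw [← D.ext_add]
        congr 1
        funext i
        rw [map_add]
        rfl
      map_smul' := fun a u => by
        rw [RingHom.id_apply, smul_eq_mul, ← D.ext_smul]
        congr 1
        funext i
        rw [map_smul]
        rfl }
  map_add' T T' := by
    ext u
    exact D.ext_add _ _ _
  map_smul' a T := by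
    ext u
    exact D.ext_smul _ _ _

theorem evx_apply (U : Submodule ℝ (EuclideanSpace ℝ P)) (x : X)
    (T : U →L[ℝ] EuclideanSpace ℝ P) (u : U) : D.evx U x T u = D.ext (fun i => T u i) x := rfl

/-- The action on an invariant subspace. -/
noncomputable def actU {U : Submodule ℝ (EuclideanSpace ℝ P)} (hU : D.coc.Inv U) (g : G) (u : U) : U :=
  ⟨D.coc.act g u, hU g u u.2⟩

variable {D} {U : Submodule ℝ (EuclideanSpace ℝ P)} (hU : D.coc.Inv U)

theorem actU_mul (g g' : G) (u : U) : D.actU hU (g * g') u = D.actU hU g (D.actU hU g' u) :=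
  Subtype.ext (D.coc.act_mul g g' u)

theorem actU_one (u : U) : D.actU hU 1 u = u := Subtype.ext (D.coc.act_one _)

theorem evx_act {T : U →L[ℝ] EuclideanSpace ℝ P} (hT : T ∈ D.coc.Hom U) (g : G) (x : X) (u : U) :
    D.evx U x T (D.actU hU g u) = D.evx U (g⁻¹ • x) T u := by
  rw [evx_apply, evx_apply, ← D.ext_act, ← hT g u (D.actU hU g u) rfl]

/-- The stabiliser of a functional. -/
noncomputable def stabL (hU : D.coc.Inv U) (l : U →ₗ[ℝ] ℝ) : Subgroup G where
  carrier := {j | ∀ u, l (D.actU hU j u) = l u}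
  one_mem' := fun u => by rw [actU_one]
  mul_mem' := by
    intro j j' hj hj' u
    rw [actU_mul, hj, hj']
  inv_mem' := by
    intro j hj u
    have h1 := hj (D.actU hU j⁻¹ u)
    rw [← actU_mul, mul_inv_cancel, actU_one] at h1
    exact h1.symm

theorem stabilizer_le_stabL {T : U →L[ℝ] EuclideanSpace ℝ P} (hT : T ∈ D.coc.Hom U) (x : X) :
    MulAction.stabilizer G x ≤ stabL hU (D.evx U x T) := by
  intro h hh u
  rw [evx_act hU hT]
  have h1 : h⁻¹ • x = x := (Subgroup.inv_mem _ hh : h⁻¹ ∈ MulAction.stabilizer G x)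
  rw [h1]

theorem act_z {z : G} (hz : ∀ x, D.c x = z • x) (u : EuclideanSpace ℝ P) : D.coc.act z u = -u := by
  have h1 : ∀ x : X, D.ext (fun i => D.coc.act z u i) x = - D.ext (fun i => u i) x := by
    intro x
    rw [D.ext_act, ← D.ext_c]
    congr 1
    have h2 := D.hcc (z⁻¹ • x)
    rw [hz (z⁻¹ • x), smul_inv_smul] at h2
    exact h2.symm
  ext i
  have h2 := h1 (D.r i)
  rw [D.ext_r, D.ext_r] at h2
  exact h2

theorem z_notMem_stabL {z : G} (hz : ∀ x, D.c x = z • x) {l : U →ₗ[ℝ] ℝ} (hl : l ≠ 0) :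
    z ∉ stabL hU l := by
  intro h
  apply hl
  ext u
  have h1 := h u
  have h2 : D.actU hU z u = -u := Subtype.ext (act_z hz u)
  rw [h2, map_neg] at h1
  rw [LinearMap.zero_apply]
  linarith

/-- The range of an operator is in the space attached to the stabiliser. -/
theorem mem_EJ_stabL {T : U →L[ℝ] EuclideanSpace ℝ P} (hT : T ∈ D.coc.Hom U) (x : X) (u : U) :
    (fun i => T u i) ∈ D.EJ ℝ x (stabL hU (D.evx U x T)) := by
  intro g j hj
  have h1 := evx_act hU hT (g * j)⁻¹ x u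
  rw [inv_inv, evx_apply, evx_apply] at h1
  have h2 := evx_act hU hT g⁻¹ x u
  rw [inv_inv, evx_apply, evx_apply] at h2
  rw [← mul_smul, ← h1, ← h2]
  have h3 := (Subgroup.inv_mem _ hj) (D.actU hU g⁻¹ u)
  rw [← actU_mul, evx_apply, evx_apply] at h3
  rw [mul_inv_rev]
  exact h3

variable [MulAction.IsPretransitive G X]

include hU in
theorem evx_injective {T : U →L[ℝ] EuclideanSpace ℝ P} (hT : T ∈ D.coc.Hom U) {x : X}
    (h : D.evx U x T = 0) : T = 0 := by
  ext u i
  obtain ⟨g, hg⟩ := MulAction.exists_smul_eq G x (D.r i)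
  have h1 := evx_act hU hT g⁻¹ x u
  rw [h, inv_inv, hg, evx_apply, D.ext_r] at h1
  exact h1.symm

include hU in
/-- The dichotomy. -/
theorem exists_subgroup [Finite G] {z : G} (hz : ∀ x, D.c x = z • x)
    (hlt : finrank ℝ U < 2 * finrank ℝ (D.coc.Hom U)) {x₀ x₁ : X}
    (hne : MulAction.stabilizer G x₁ ≠ MulAction.stabilizer G x₀) :
    ∃ J : Subgroup G, MulAction.stabilizer G x₀ ≤ J ∧ J ≠ MulAction.stabilizer G x₀ ∧ z ∉ J ∧
      ∃ T ∈ D.coc.Hom U, T ≠ 0 ∧ ∀ u, (fun i => T u i) ∈ D.EJ ℝ x₀ J := by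
  let L : X → (D.coc.Hom U →ₗ[ℝ] (U →ₗ[ℝ] ℝ)) := fun x => (D.evx U x) ∘ₗ (D.coc.Hom U).subtype
  have hL : ∀ x, Function.Injective (L x) := by
    intro x
    rw [injective_iff_map_eq_zero]
    intro T hT
    exact Subtype.ext (evx_injective hU T.2 hT)
  have hr : ∀ x, finrank ℝ (LinearMap.range (L x)) = finrank ℝ (D.coc.Hom U) := fun x =>
    LinearMap.finrank_range_of_inj (hL x)
  have hint : LinearMap.range (L x₀) ⊓ LinearMap.range (L x₁) ≠ ⊥ := by
    intro h
    have h1 := Submodule.finrank_sup_add_finrank_inf_eq (LinearMap.range (L x₀))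
      (LinearMap.range (L x₁))
    rw [h, finrank_bot, add_zero, hr, hr] at h1
    have h2 := Submodule.finrank_le (LinearMap.range (L x₀) ⊔ LinearMap.range (L x₁))
    have h3 : finrank ℝ (U →ₗ[ℝ] ℝ) = finrank ℝ U := Subspace.dual_finrank_eq
    omega
  obtain ⟨l, ⟨⟨T, hT⟩, ⟨T', hT'⟩⟩, hl0⟩ := Submodule.exists_mem_ne_zero_of_ne_bot hint
  have e1 : D.evx U x₀ T.1 = l := hT
  have e2 : D.evx U x₁ T'.1 = l := hT'
  refine ⟨stabL hU l, ?_, ?_, z_notMem_stabL hU hz hl0, T.1, T.2, ?_, fun u => ?_⟩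
  · rw [← e1]; exact stabilizer_le_stabL hU T.2 x₀
  · intro h
    have h1 : MulAction.stabilizer G x₁ ≤ MulAction.stabilizer G x₀ := by
      rw [← h, ← e2]
      exact stabilizer_le_stabL hU T'.2 x₁
    apply hne
    refine Subgroup.eq_of_le_of_card_ge h1 (le_of_eq ?_)
    have h2 := Subgroup.card_mul_index (MulAction.stabilizer G x₀)
    have h3 := Subgroup.card_mul_index (MulAction.stabilizer G x₁)
    rw [MulAction.index_stabilizer_of_transitive] at h2 h3
    have h4 : Nat.card X ≠ 0 := by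
      intro h5
      rw [h5, mul_zero] at h2
      exact Nat.card_pos.ne' h2.symm
    exact Nat.eq_of_mul_eq_mul_right (Nat.pos_of_ne_zero h4) (h2.trans h3.symm)
  · intro h
    apply hl0
    rw [← e1, h, map_zero]
  · have h1 := mem_EJ_stabL hU T.2 x₀ u
    rw [e1] at h1
    exact h1

end PairData

/-- A smallest subgroup. -/
theorem exists_min_subgroup {G : Type*} [Group G] [Finite G] (H : Subgroup G) (z : G) {d : ℕ}
    (hd : ∀ J : Subgroup G, H ≤ J → J ≠ H → z ∉ J → J.index ≤ d) (hH : d ^ 2 < H.index) :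
    (∀ J : Subgroup G, H ≤ J → J ≠ H → z ∈ J) ∨
    ∃ J₁ : Subgroup G, H ≤ J₁ ∧ J₁ ≠ H ∧ z ∉ J₁ ∧ ∀ J : Subgroup G, H ≤ J → J ≠ H → z ∉ J →
      J₁ ≤ J := by
  by_cases h : ∀ J : Subgroup G, H ≤ J → J ≠ H → z ∈ J
  · exact Or.inl h
  right
  push Not at h
  let S : Set (Subgroup G) := {J | H ≤ J ∧ J ≠ H ∧ z ∉ J}
  have hS : S.Nonempty := h
  obtain ⟨J₁, hJ₁, hmin⟩ := Set.exists_min_image S (fun J => Nat.card J) (Set.toFinite _) hS
  refine ⟨J₁, hJ₁.1, hJ₁.2.1, hJ₁.2.2, fun J h1 h2 h3 => ?_⟩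
  have h4 : J₁ ⊓ J ∈ S := by
    refine ⟨le_inf hJ₁.1 h1, fun h5 => ?_, fun h5 => hJ₁.2.2 h5.1⟩
    have h6 := Subgroup.index_inf_le (H := J₁) (K := J)
    rw [h5] at h6
    have h7 := hd J₁ hJ₁.1 hJ₁.2.1 hJ₁.2.2
    have h8 := hd J h1 h2 h3
    have h9 : J₁.index * J.index ≤ d ^ 2 := by
      rw [sq]; exact Nat.mul_le_mul h7 h8
    omega
  have h5 := hmin _ h4
  have h6 : J₁ ⊓ J = J₁ := Subgroup.eq_of_le_of_card_ge inf_le_left h5
  rw [← h6]
  exact inf_le_right

end Pool.MP43e44c
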